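import Pool.Agent.R217.CW.Neh
import Pool.Agent.R217.HS.Der

set_option autoImplicit false
set_option linter.unusedSectionVars false

open MeasureTheory Filter Topology
open scoped ContDiff ENNReal NNReal RealInnerProductSpace

namespace Pool.Agent.R217.CW

open Pool.Agent.R217.BN (E cexp sobS)
open Pool.Agent.R217.HS (IsH1 Tst subC)

variable {n : ℕ}

/-- `∫ |u|^{p-1} u φ`. -/
noncomputable def dA (p : ℝ) (z w : Pr n) : ℝ := ∫ x, |z.u x| ^ (p - 1) * z.u x * w.u x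

/-- `∫ |v|^{2*-2} v ψ`. -/
noncomputable def dB (z w : Pr n) : ℝ := ∫ x, |z.v x| ^ (cexp n - 2) * z.v x * w.v x

lemma dEn_eq {p μ ν lam : ℝ} {z w : Pr n} (hz : InH z) (hw : InH w) :
    dEn p μ ν lam z w = Bf μ ν lam z w - dA p z w - dB z w := by
  unfold dEn Bf dA dB
  rw [integral_add (HS.integrable_inner' hz.1.mG hw.1.mG) ((int_uv hz.1.mu hw.1.mu).const_mul μ),
    integral_add (HS.integrable_inner' hz.2.mG hw.2.mG) ((int_uv hz.2.mu hw.2.mu).const_mul ν),
    integral_const_mul, integral_const_mul,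
    integral_add (int_uv hz.1.mu hw.2.mu) (int_uv hz.2.mu hw.1.mu)]
  ring

lemma dEn_neg {p μ ν lam : ℝ} {z w : Pr n} :
    dEn p μ ν lam z (smulP (-1) w) = -dEn p μ ν lam z w := by
  unfold dEn smulP
  simp only [neg_one_mul, neg_smul, one_smul, inner_neg_right, mul_neg]
  have e1 : ∫ x, (-⟪z.G x, w.G x⟫ + -(μ * (z.u x * w.u x))) =
      -∫ x, (⟪z.G x, w.G x⟫ + μ * (z.u x * w.u x)) := by
    rw [← integral_neg]; congr 1; funext x; ring
  have e2 : ∫ x, (-⟪z.H x, w.H x⟫ + -(ν * (z.v x * w.v x))) =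
      -∫ x, (⟪z.H x, w.H x⟫ + ν * (z.v x * w.v x)) := by
    rw [← integral_neg]; congr 1; funext x; ring
  have e3 : ∫ x, (-(z.u x * w.v x) + -(z.v x * w.u x)) = -∫ x, (z.u x * w.v x + z.v x * w.u x) := by
    rw [← integral_neg]; congr 1; funext x; ring
  rw [e1, e2, e3, integral_neg, integral_neg]
  ring

lemma deriv_A (hn : 3 ≤ n) {p : ℝ} (hp : 1 < p) (hp' : p + 1 < cexp n) {z w : Pr n}
    (hz : InH z) (hw : InH w) :
    HasDerivAt (fun s => Af p (addP z (smulP s w))) ((p + 1) * dA p z w) 0 := by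
  have h := (HS.hasDerivAt_int_rpow (r := p + 1) (by linarith)
    (hz.1.int_rpow hn (by linarith) hp'.le) (hw.1.int_rpow hn (by linarith) hp'.le)
    hz.1.mu.1 hw.1.mu.1).2
  unfold Af addP smulP dA
  rw [show p + 1 - 2 = p - 1 by ring] at h
  exact h

lemma deriv_B (hn : 3 ≤ n) {z w : Pr n} (hz : InH z) (hw : InH w) :
    HasDerivAt (fun s => Bff (addP z (smulP s w))) (cexp n * dB z w) 0 := by
  have hc := HS.two_lt_cexp hn
  exact (HS.hasDerivAt_int_rpow (r := cexp n) (by linarith)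
    (hz.2.sobolev' hn).1 (hw.2.sobolev' hn).1 hz.2.mu.1 hw.2.mu.1).2

lemma deriv_Q {μ ν lam : ℝ} {z w : Pr n} (hz : InH z) (hw : InH w) :
    HasDerivAt (fun s => Qf μ ν lam (addP z (smulP s w))) (2 * Bf μ ν lam z w) 0 := by
  have h1 : (fun s => Qf μ ν lam (addP z (smulP s w))) =
      fun s : ℝ => Qf μ ν lam z + 2 * s * Bf μ ν lam z w + s ^ 2 * Qf μ ν lam w := by
    funext s; exact Qf_expand hz hw s
  rw [h1]
  have a1 : HasDerivAt (fun s : ℝ => 2 * s * Bf μ ν lam z w) (2 * 1 * Bf μ ν lam z w) 0 :=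
    ((hasDerivAt_id (0:ℝ)).const_mul 2).mul_const _
  have a2 : HasDerivAt (fun s : ℝ => s ^ 2 * Qf μ ν lam w) ((2 * (0:ℝ) ^ 1 * 1) * Qf μ ν lam w) 0 := by
    have := ((hasDerivAt_id (0:ℝ)).fun_pow 2).mul_const (Qf μ ν lam w)
    simpa using this
  have a3 := (a1.const_add (Qf μ ν lam z)).add a2
  exact a3.congr_deriv (by ring)

lemma rpow_ge_aux {r t : ℝ} (hr : 2 < r) (ht : 0 ≤ t) : t ^ 2 / 2 - t ^ r / r ≤ 1 / 2 - 1 / r := by
  have h1 := one_add_mul_self_le_rpow_one_add (s := t ^ 2 - 1) (by nlinarith [sq_nonneg t])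
    (p := r / 2) (by linarith)
  rw [show 1 + (t ^ 2 - 1) = t ^ 2 by ring] at h1
  have h2 : (t ^ 2) ^ (r / 2) = t ^ r := by
    rw [← Real.rpow_two, ← Real.rpow_mul ht]; congr 1; ring
  rw [h2] at h1
  have hr0 : 0 < r := by linarith
  have h3 : t ^ r / r ≥ (1 + r / 2 * (t ^ 2 - 1)) / r := by gcongr
  have h4 : (1 + r / 2 * (t ^ 2 - 1)) / r = 1 / r + (t ^ 2 - 1) / 2 := by field_simp
  linarith

/-- The fibering map is maximal on the Nehari manifold. -/
lemma fibre_le (hn : 3 ≤ n) {p μ ν lam : ℝ} (hp : 1 < p) {z : Pr n} (hN : Nf p μ ν lam z = 0)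
    {t : ℝ} (ht : 0 ≤ t) :
    t ^ 2 / 2 * Qf μ ν lam z - t ^ (p + 1) / (p + 1) * Af p z - t ^ cexp n / cexp n * Bff z ≤
      Kf p z := by
  have hc := HS.two_lt_cexp hn
  have hQ : Qf μ ν lam z = Af p z + Bff z := by unfold Nf at hN; linarith
  have h1 := mul_le_mul_of_nonneg_right (rpow_ge_aux (r := p + 1) (by linarith) ht) (Af_nonneg p z)
  have h2 := mul_le_mul_of_nonneg_right (rpow_ge_aux (r := cexp n) hc ht) (Bff_nonneg z)
  rw [half_sub_cexp hn] at h2
  rw [hQ]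
  unfold Kf
  nlinarith

/-- A point of the Nehari manifold on a nearby ray. -/
lemma exists_near (hn : 3 ≤ n) {p μ ν lam : ℝ} (hp : 1 < p) (hp' : p + 1 < cexp n)
    {z w : Pr n} (hz : InM p μ ν lam z) (hw : InH w) (hQ : 0 < Qf μ ν lam z)
    {η : ℝ} (hη : 0 < η) (hη1 : η < 1) :
    ∃ s t : ℝ, 0 < s ∧ s < η ∧ |t - 1| ≤ η ∧ 0 < t ∧
      InM p μ ν lam (smulP t (addP z (smulP s w))) := by
  have hc := HS.two_lt_cexp hn
  obtain ⟨hz1, hz2, hz3⟩ := (inM_iff hp hn).1 hz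
  let g : ℝ → ℝ → ℝ := fun s t => Qf μ ν lam (addP z (smulP s w)) -
    t ^ (p - 1) * Af p (addP z (smulP s w)) - t ^ (cexp n - 2) * Bff (addP z (smulP s w))
  have h00 : addP z (smulP 0 w) = z := by
    unfold addP smulP
    simp
  have cQ := (deriv_Q (μ := μ) (ν := ν) (lam := lam) hz1 hw).continuousAt
  have cA := (deriv_A hn hp hp' hz1 hw).continuousAt
  have cB := (deriv_B hn hz1 hw).continuousAt
  have cg : ∀ t, Tendsto (fun s => g s t) (𝓝 0) (𝓝 (g 0 t)) := fun t =>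
    (cQ.sub (cA.const_mul _)).sub (cB.const_mul _)
  have hA0 := Af_nonneg p z
  have hB0 := Bff_nonneg z
  have hAB : 0 < Af p z + Bff z := by unfold Nf at hz3; linarith
  have e0 : ∀ t, g 0 t = (1 - t ^ (p - 1)) * Af p z + (1 - t ^ (cexp n - 2)) * Bff z := by
    intro t
    simp only [g, h00]
    unfold Nf at hz3
    nlinarith
  have p1 : 0 < g 0 (1 - η) := by
    rw [e0]
    have a1 : (1 - η) ^ (p - 1) < 1 := Real.rpow_lt_one (by linarith) (by linarith) (by linarith)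
    have a2 : (1 - η) ^ (cexp n - 2) < 1 :=
      Real.rpow_lt_one (by linarith) (by linarith) (by linarith)
    rcases eq_or_lt_of_le hA0 with h | h
    · have : 0 < Bff z := by linarith
      rw [← h, mul_zero, zero_add]
      exact mul_pos (by linarith) this
    · have b1 : 0 < (1 - (1 - η) ^ (p - 1)) * Af p z := mul_pos (by linarith) h
      have b2 : 0 ≤ (1 - (1 - η) ^ (cexp n - 2)) * Bff z := mul_nonneg (by linarith) hB0
      linarith
  have p2 : g 0 (1 + η) < 0 := by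
    rw [e0]
    have a1 : 1 < (1 + η) ^ (p - 1) := Real.one_lt_rpow (by linarith) (by linarith)
    have a2 : 1 < (1 + η) ^ (cexp n - 2) := Real.one_lt_rpow (by linarith) (by linarith)
    rcases eq_or_lt_of_le hA0 with h | h
    · have : 0 < Bff z := by linarith
      rw [← h, mul_zero, zero_add]
      exact mul_neg_of_neg_of_pos (by linarith) this
    · have b1 : (1 - (1 + η) ^ (p - 1)) * Af p z < 0 := mul_neg_of_neg_of_pos (by linarith) h
      have b2 : (1 - (1 + η) ^ (cexp n - 2)) * Bff z ≤ 0 :=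
        mul_nonpos_of_nonpos_of_nonneg (by linarith) hB0
      linarith
  have ev1 : ∀ᶠ s in 𝓝 (0:ℝ), 0 < g s (1 - η) := (cg _).eventually (lt_mem_nhds p1)
  have ev2 : ∀ᶠ s in 𝓝 (0:ℝ), g s (1 + η) < 0 := (cg _).eventually (gt_mem_nhds p2)
  -- the point stays away from zero
  have hnn : ContinuousAt (fun s : ℝ => (∫ x, (addP z (smulP s w)).u x ^ 2) +
      ∫ x, (addP z (smulP s w)).v x ^ 2) 0 := by
    unfold addP smulP
    simp only [sq_expand hz1.1.mu hw.1.mu, sq_expand hz1.2.mu hw.2.mu]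
    fun_prop
  have ev3 : ∀ᶠ s in 𝓝 (0:ℝ), 0 < (∫ x, (addP z (smulP s w)).u x ^ 2) +
      ∫ x, (addP z (smulP s w)).v x ^ 2 := by
    apply hnn.eventually (lt_mem_nhds _)
    change 0 < (∫ x, (addP z (smulP 0 w)).u x ^ 2) + ∫ x, (addP z (smulP 0 w)).v x ^ 2
    rw [h00]; exact hz2
  obtain ⟨δ, hδ, hall⟩ := Metric.eventually_nhds_iff.1 (ev1.and (ev2.and ev3))
  obtain ⟨s, hs0, hsδ, hsη⟩ : ∃ s : ℝ, 0 < s ∧ s < δ ∧ s < η := by
    refine ⟨min (δ / 2) (η / 2), by positivity, ?_, ?_⟩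
    · have := min_le_left (δ / 2) (η / 2); linarith
    · have := min_le_right (δ / 2) (η / 2); linarith
  obtain ⟨g1, g2, g3⟩ := hall (y := s) (by rw [Real.dist_eq, sub_zero, abs_of_pos hs0]; exact hsδ)
  have gc : Continuous (g s) := by
    have c1 : Continuous fun t : ℝ => t ^ (p - 1) := by
      apply Continuous.rpow_const continuous_id
      intro x; right; linarith
    have c2 : Continuous fun t : ℝ => t ^ (cexp n - 2) := by
      apply Continuous.rpow_const continuous_id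
      intro x; right; linarith
    fun_prop
  obtain ⟨t, ⟨ht1, ht2⟩, htg⟩ := intermediate_value_Icc' (f := g s) (a := 1 - η) (b := 1 + η)
    (by linarith) gc.continuousOn ⟨g2.le, g1.le⟩
  have ht0 : 0 < t := by linarith
  have hy : InH (addP z (smulP s w)) := hz1.addP (hw.smulP s)
  refine ⟨s, t, hs0, hsη, by rw [abs_le]; constructor <;> linarith, ht0, ?_⟩
  refine (inM_iff hp hn).2 ⟨hy.smulP t, ?_, ?_⟩
  · unfold smulP at g3 ⊢
    simp only [int_sq_smul]
    rw [← mul_add]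
    exact mul_pos (by positivity) g3
  · have e1 : t ^ (p + 1) = t ^ 2 * t ^ (p - 1) := by
      rw [← Real.rpow_two, ← Real.rpow_add ht0]; congr 1; ring
    have e2 : t ^ cexp n = t ^ 2 * t ^ (cexp n - 2) := by
      rw [← Real.rpow_two, ← Real.rpow_add ht0]; congr 1; ring
    unfold Nf
    rw [Qf_smul, Af_smul p _ ht0.le, Bff_smul _ ht0.le, e1, e2]
    have : t ^ 2 * Qf μ ν lam (addP z (smulP s w)) -
        t ^ 2 * t ^ (p - 1) * Af p (addP z (smulP s w)) -
        t ^ 2 * t ^ (cexp n - 2) * Bff (addP z (smulP s w)) = t ^ 2 * g s t := by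
      simp only [g]; ring
    rw [this, htg, mul_zero]

/-- One-sided criticality of minimisers. -/
lemma crit_nonneg (hn : 3 ≤ n) {p μ ν lam : ℝ} (hp : 1 < p) (hp' : p + 1 < cexp n)
    {z w : Pr n} (hz : InM p μ ν lam z) (hw : InH w) (hQ : 0 < Qf μ ν lam z)
    (hmin : Kf p z = lev n p μ ν lam) : 0 ≤ dEn p μ ν lam z w := by
  have hc := HS.two_lt_cexp hn
  have hc0 : 0 < cexp n := by linarith
  obtain ⟨hz1, hz2, hz3⟩ := (inM_iff hp hn).1 hz
  have hex : ∀ k : ℕ, ∃ st : ℝ × ℝ, 0 < st.1 ∧ st.1 < 1 / ((k:ℝ) + 2) ∧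
      |st.2 - 1| ≤ 1 / ((k:ℝ) + 2) ∧ 0 < st.2 ∧
      InM p μ ν lam (smulP st.2 (addP z (smulP st.1 w))) := by
    intro k
    obtain ⟨s, t, h⟩ := exists_near hn hp hp' hz hw hQ (η := 1 / ((k:ℝ) + 2)) (by positivity)
      (by rw [div_lt_one (by positivity)]; have : (0:ℝ) ≤ k := by positivity
          linarith)
    exact ⟨(s, t), h⟩
  choose st h1 h2 h3 h4 h5 using hex
  have hz0 : Tendsto (fun k : ℕ => 1 / ((k:ℝ) + 2)) atTop (𝓝 0) := by
    have := (tendsto_one_div_add_atTop_nhds_zero_nat (𝕜 := ℝ)).comp (tendsto_add_atTop_nat 1)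
    refine this.congr fun k => ?_
    simp only [Function.comp_apply]
    push_cast
    rw [add_assoc]; norm_num
  have ls : Tendsto (fun k => (st k).1) atTop (𝓝 0) :=
    tendsto_of_tendsto_of_tendsto_of_le_of_le tendsto_const_nhds hz0 (fun k => (h1 k).le)
      (fun k => (h2 k).le)
  have ls' : Tendsto (fun k => (st k).1) atTop (𝓝[≠] 0) := by
    rw [tendsto_nhdsWithin_iff]
    exact ⟨ls, Eventually.of_forall fun k => (h1 k).ne'⟩
  have lt : Tendsto (fun k => (st k).2) atTop (𝓝 1) := by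
    rw [tendsto_iff_norm_sub_tendsto_zero]
    exact tendsto_of_tendsto_of_tendsto_of_le_of_le tendsto_const_nhds hz0
      (fun k => norm_nonneg _) h3
  have h00 : addP z (smulP 0 w) = z := by
    unfold addP smulP
    simp
  have dQ := (hasDerivAt_iff_tendsto_slope.1
    (deriv_Q (μ := μ) (ν := ν) (lam := lam) hz1 hw)).comp ls'
  have dA' := (hasDerivAt_iff_tendsto_slope.1 (deriv_A hn hp hp' hz1 hw)).comp ls'
  have dB' := (hasDerivAt_iff_tendsto_slope.1 (deriv_B hn hz1 hw)).comp ls'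
  have t2 : Tendsto (fun k => (st k).2 ^ 2 / 2) atTop (𝓝 (1 ^ 2 / 2)) := (lt.pow 2).div_const 2
  have tp : Tendsto (fun k => (st k).2 ^ (p + 1) / (p + 1)) atTop (𝓝 (1 ^ (p + 1) / (p + 1))) :=
    (lt.rpow_const (Or.inl one_ne_zero)).div_const _
  have tc : Tendsto (fun k => (st k).2 ^ cexp n / cexp n) atTop (𝓝 (1 ^ cexp n / cexp n)) :=
    (lt.rpow_const (Or.inl one_ne_zero)).div_const _
  have hlim := ((t2.mul dQ).sub (tp.mul dA')).sub (tc.mul dB')
  have hval : (1:ℝ) ^ 2 / 2 * (2 * Bf μ ν lam z w) - 1 ^ (p + 1) / (p + 1) * ((p + 1) * dA p z w) -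
      1 ^ cexp n / cexp n * (cexp n * dB z w) = dEn p μ ν lam z w := by
    rw [dEn_eq hz1 hw, Real.one_rpow, Real.one_rpow]
    have : p + 1 ≠ 0 := by linarith
    field_simp
  rw [hval] at hlim
  apply ge_of_tendsto' hlim
  intro k
  obtain ⟨s, hs⟩ : ∃ s, s = (st k).1 := ⟨_, rfl⟩
  obtain ⟨t, ht⟩ : ∃ t, t = (st k).2 := ⟨_, rfl⟩
  have hs0 : 0 < s := by rw [hs]; exact h1 k
  have ht0 : 0 < t := by rw [ht]; exact h4 k
  have hM : InM p μ ν lam (smulP t (addP z (smulP s w))) := by rw [hs, ht]; exact h5 k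
  simp only [Function.comp_apply, slope, vsub_eq_sub, sub_zero, smul_eq_mul, h00]
  rw [← hs, ← ht]
  have hlev := lev_le hp hn hM
  rw [← hmin, ← En_M hp hn hM] at hlev
  have hEn : En p μ ν lam (smulP t (addP z (smulP s w))) =
      t ^ 2 / 2 * Qf μ ν lam (addP z (smulP s w)) -
        t ^ (p + 1) / (p + 1) * Af p (addP z (smulP s w)) -
        t ^ cexp n / cexp n * Bff (addP z (smulP s w)) := by
    rw [En_eq hn ((hz1.addP (hw.smulP s)).smulP t)]
    unfold Kf Nf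
    rw [Qf_smul, Af_smul p _ ht0.le, Bff_smul _ ht0.le, ← half_sub_cexp hn]
    ring
  have hfib := fibre_le hn hp hz3 ht0.le (μ := μ) (ν := ν) (lam := lam)
  rw [hEn] at hlev
  have hdiff : 0 ≤ t ^ 2 / 2 * (Qf μ ν lam (addP z (smulP s w)) - Qf μ ν lam z) -
      t ^ (p + 1) / (p + 1) * (Af p (addP z (smulP s w)) - Af p z) -
      t ^ cexp n / cexp n * (Bff (addP z (smulP s w)) - Bff z) := by
    linarith
  have hs' : 0 ≤ s⁻¹ := by positivity
  have := mul_nonneg hs' hdiff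
  refine this.trans_eq ?_
  ring

/-- Minimisers on the Nehari manifold are solutions. -/
theorem isSol_of_min (hn : 3 ≤ n) {p μ ν lam : ℝ} (hp : 1 < p) (hp' : p + 1 < cexp n)
    (hμ : 0 < μ) (hν : 0 < ν) (h0 : 0 < lam) (h1 : lam < Real.sqrt (μ * ν))
    {z : Pr n} (hz : InM p μ ν lam z) (hmin : Kf p z = lev n p μ ν lam) : IsGS p μ ν lam z := by
  obtain ⟨hz1, hz2, hz3⟩ := (inM_iff hp hn).1 hz
  have hQ := Qf_pos hμ hν h0 h1 hz1 hz2
  refine ⟨hz, ⟨hz1, fun w hw => ?_⟩, by rw [En_M hp hn hz, hmin]⟩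
  have a1 := crit_nonneg hn hp hp' hz hw hQ hmin
  have a2 := crit_nonneg hn hp hp' hz (hw.smulP (-1)) hQ hmin
  rw [dEn_neg] at a2
  linarith

end Pool.Agent.R217.CW
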