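import Pool.Agent.R217.HS.Sob

set_option autoImplicit false
set_option linter.unusedSectionVars false

open MeasureTheory Filter Topology
open scoped ContDiff ENNReal NNReal RealInnerProductSpace

namespace Pool.Agent.R217.CW

open Pool.Agent.R217.BN (E cexp sobS)
open Pool.Agent.R217.HS (IsH1 Tst subC)

/-- A pair `(u, v)` of functions on `ℝⁿ` together with vector fields `G`, `H` (their gradients). -/
structure Pr (n : ℕ) where
  /-- first component -/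
  u : E n → ℝ
  /-- gradient of the first component -/
  G : E n → E n
  /-- second component -/
  v : E n → ℝ
  /-- gradient of the second component -/
  H : E n → E n

/-- `(u, v) ∈ H¹(ℝⁿ) × H¹(ℝⁿ)`, with `G = ∇u` and `H = ∇v`. -/
def InH {n : ℕ} (z : Pr n) : Prop := IsH1 z.u z.G ∧ IsH1 z.v z.H

/-- `‖u‖_μ² = ∫ (|∇u|² + μ u²)`. -/
noncomputable def nsq {n : ℕ} (μ : ℝ) (u : E n → ℝ) (G : E n → E n) : ℝ :=
  ∫ x, (‖G x‖ ^ 2 + μ * u x ^ 2)

/-- The energy functional `I`. -/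
noncomputable def En {n : ℕ} (p μ ν lam : ℝ) (z : Pr n) : ℝ :=
  1 / 2 * nsq μ z.u z.G + 1 / 2 * nsq ν z.v z.H - 1 / (p + 1) * (∫ x, |z.u x| ^ (p + 1)) -
    1 / cexp n * (∫ x, |z.v x| ^ cexp n) - lam * ∫ x, z.u x * z.v x

/-- The derivative `I'(z)w` of the energy functional. -/
noncomputable def dEn {n : ℕ} (p μ ν lam : ℝ) (z w : Pr n) : ℝ :=
  (∫ x, (⟪z.G x, w.G x⟫ + μ * (z.u x * w.u x))) + (∫ x, (⟪z.H x, w.H x⟫ + ν * (z.v x * w.v x))) -
    (∫ x, |z.u x| ^ (p - 1) * z.u x * w.u x) - (∫ x, |z.v x| ^ (cexp n - 2) * z.v x * w.v x) -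
      lam * ∫ x, (z.u x * w.v x + z.v x * w.u x)

/-- The Nehari manifold `M = {z ∈ H \ {0} : I'(z)z = 0}`. -/
def InM {n : ℕ} (p μ ν lam : ℝ) (z : Pr n) : Prop :=
  InH z ∧ ¬ (z.u =ᵐ[volume] 0 ∧ z.v =ᵐ[volume] 0) ∧ dEn p μ ν lam z z = 0

/-- The level `m = inf_M I`. -/
noncomputable def lev (n : ℕ) (p μ ν lam : ℝ) : ℝ :=
  sInf {r | ∃ z : Pr n, InM p μ ν lam z ∧ r = En p μ ν lam z}

/-- `z ∈ H` is a critical point of `I`, that is, a solution of the system. -/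
def IsSol {n : ℕ} (p μ ν lam : ℝ) (z : Pr n) : Prop :=
  InH z ∧ ∀ w : Pr n, InH w → dEn p μ ν lam z w = 0

/-- `z` is a ground state solution. -/
def IsGS {n : ℕ} (p μ ν lam : ℝ) (z : Pr n) : Prop :=
  InM p μ ν lam z ∧ IsSol p μ ν lam z ∧ En p μ ν lam z = lev n p μ ν lam

/-- The number `μ₀`. -/
noncomputable def mu0 (n : ℕ) (p : ℝ) : ℝ :=
  (2 * (p + 1) / (n * (p - 1)) * sobS n ^ ((n : ℝ) / 2) *
    subC n (p + 1) ^ (-((p + 1) / (p - 1)))) ^ ((p + 1) / (p - 1) - (n : ℝ) / 2)⁻¹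

/-! ### auxiliary quantities -/

section

variable {n : ℕ}

/-- The bilinear form. -/
noncomputable def Bf (μ ν lam : ℝ) (z w : Pr n) : ℝ :=
  (∫ x, ⟪z.G x, w.G x⟫) + μ * (∫ x, z.u x * w.u x) + (∫ x, ⟪z.H x, w.H x⟫) +
    ν * (∫ x, z.v x * w.v x) - lam * ((∫ x, z.u x * w.v x) + ∫ x, z.v x * w.u x)

/-- The quadratic form. -/
noncomputable def Qf (μ ν lam : ℝ) (z : Pr n) : ℝ :=
  (∫ x, ‖z.G x‖ ^ 2) + μ * (∫ x, z.u x ^ 2) + (∫ x, ‖z.H x‖ ^ 2) + ν * (∫ x, z.v x ^ 2) -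
    2 * lam * ∫ x, z.u x * z.v x

/-- `∫ |u|^{p+1}`. -/
noncomputable def Af (p : ℝ) (z : Pr n) : ℝ := ∫ x, |z.u x| ^ (p + 1)

/-- `∫ |v|^{2*}`. -/
noncomputable def Bff (z : Pr n) : ℝ := ∫ x, |z.v x| ^ cexp n

/-- The Nehari functional. -/
noncomputable def Nf (p μ ν lam : ℝ) (z : Pr n) : ℝ := Qf μ ν lam z - Af p z - Bff z

/-- The energy on the Nehari manifold. -/
noncomputable def Kf (p : ℝ) (z : Pr n) : ℝ := (1 / 2 - 1 / (p + 1)) * Af p z + 1 / n * Bff z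

lemma Af_nonneg (p : ℝ) (z : Pr n) : 0 ≤ Af p z := integral_nonneg fun x => by positivity

lemma Bff_nonneg (z : Pr n) : 0 ≤ Bff z := integral_nonneg fun x => by positivity

lemma half_sub_cexp (hn : 3 ≤ n) : 1 / 2 - 1 / cexp n = 1 / (n : ℝ) := by
  have : (3:ℝ) ≤ n := by exact_mod_cast hn
  unfold cexp
  have h2 : (n:ℝ) - 2 ≠ 0 := by linarith
  field_simp
  ring

lemma int_uv {u v : E n → ℝ} (hu : MemLp u 2 volume) (hv : MemLp v 2 volume) :
    Integrable (fun x => u x * v x) := by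
  have := HS.integrable_inner' hv hu
  simpa only [RCLike.inner_apply, conj_trivial] using this

lemma nsq_eq {u : E n → ℝ} {G : E n → E n} (h : IsH1 u G) (μ : ℝ) :
    nsq μ u G = (∫ x, ‖G x‖ ^ 2) + μ * ∫ x, u x ^ 2 := by
  unfold nsq
  rw [integral_add h.int_grad (h.int_sq.const_mul μ), integral_const_mul]

lemma En_eq (hn : 3 ≤ n) {p μ ν lam : ℝ} {z : Pr n} (hz : InH z) :
    En p μ ν lam z = Kf p z + 1 / 2 * Nf p μ ν lam z := by
  unfold En Kf Nf Qf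
  rw [nsq_eq hz.1, nsq_eq hz.2]
  have h1 := half_sub_cexp hn
  rw [← h1]
  unfold Af Bff
  ring

lemma dEn_self {p μ ν lam : ℝ} (hp : 1 < p) (hn : 3 ≤ n) {z : Pr n} (hz : InH z) :
    dEn p μ ν lam z z = Nf p μ ν lam z := by
  have hc := HS.two_lt_cexp hn
  unfold dEn Nf Qf Af Bff
  have e1 : ∫ x, (⟪z.G x, z.G x⟫ + μ * (z.u x * z.u x)) =
      (∫ x, ‖z.G x‖ ^ 2) + μ * ∫ x, z.u x ^ 2 := by
    rw [← integral_const_mul, ← integral_add hz.1.int_grad (hz.1.int_sq.const_mul μ)]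
    congr 1; funext x; rw [real_inner_self_eq_norm_sq]; ring
  have e2 : ∫ x, (⟪z.H x, z.H x⟫ + ν * (z.v x * z.v x)) =
      (∫ x, ‖z.H x‖ ^ 2) + ν * ∫ x, z.v x ^ 2 := by
    rw [← integral_const_mul, ← integral_add hz.2.int_grad (hz.2.int_sq.const_mul ν)]
    congr 1; funext x; rw [real_inner_self_eq_norm_sq]; ring
  have e3 : ∀ t q : ℝ, 1 < q → |t| ^ (q - 2) * t * t = |t| ^ q := by
    intro t q hq
    rcases eq_or_ne t 0 with h0 | h0
    · rw [h0]; simp [Real.zero_rpow (show q ≠ 0 by linarith)]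
    · rw [mul_assoc, ← sq, ← sq_abs, ← Real.rpow_two, ← Real.rpow_add (abs_pos.2 h0)]
      congr 1; ring
  have e4 : ∫ x, |z.u x| ^ (p - 1) * z.u x * z.u x = ∫ x, |z.u x| ^ (p + 1) := by
    congr 1; funext x
    rw [← e3 (z.u x) (p + 1) (by linarith)]
    congr 3; ring
  have e5 : ∫ x, |z.v x| ^ (cexp n - 2) * z.v x * z.v x = ∫ x, |z.v x| ^ cexp n := by
    congr 1; funext x
    rw [← e3 (z.v x) (cexp n) (by linarith)]
  have e6 : ∫ x, (z.u x * z.v x + z.v x * z.u x) = 2 * ∫ x, z.u x * z.v x := by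
    rw [← integral_const_mul]
    congr 1; funext x; ring
  rw [e1, e2, e4, e5, e6]
  ring

/-- nonvanishing in terms of integrals -/
lemma ae_zero_iff {u : E n → ℝ} (hu : MemLp u 2 volume) :
    u =ᵐ[volume] 0 ↔ ∫ x, u x ^ 2 = 0 := by
  have hi : Integrable (fun x => u x ^ 2) := by
    have := HS.integrable_sq hu
    simpa only [Real.norm_eq_abs, sq_abs] using this
  rw [integral_eq_zero_iff_of_nonneg (fun x => sq_nonneg _) hi]
  constructor
  · intro h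
    filter_upwards [h] with x hx
    rw [hx]; simp
  · intro h
    filter_upwards [h] with x hx
    simpa using hx

lemma nz_iff {z : Pr n} (hz : InH z) :
    ¬ (z.u =ᵐ[volume] 0 ∧ z.v =ᵐ[volume] 0) ↔ 0 < (∫ x, z.u x ^ 2) + ∫ x, z.v x ^ 2 := by
  rw [ae_zero_iff hz.1.mu, ae_zero_iff hz.2.mu]
  have h1 : 0 ≤ ∫ x, z.u x ^ 2 := integral_nonneg fun x => by positivity
  have h2 : 0 ≤ ∫ x, z.v x ^ 2 := integral_nonneg fun x => by positivity
  constructor
  · intro h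
    by_contra h3
    exact h ⟨by linarith, by linarith⟩
  · rintro h ⟨h3, h4⟩
    linarith

lemma inM_iff {p μ ν lam : ℝ} (hp : 1 < p) (hn : 3 ≤ n) {z : Pr n} :
    InM p μ ν lam z ↔ InH z ∧ 0 < (∫ x, z.u x ^ 2) + (∫ x, z.v x ^ 2) ∧ Nf p μ ν lam z = 0 := by
  unfold InM
  constructor
  · rintro ⟨h1, h2, h3⟩
    exact ⟨h1, (nz_iff h1).1 h2, by rw [← dEn_self hp hn h1]; exact h3⟩
  · rintro ⟨h1, h2, h3⟩
    exact ⟨h1, (nz_iff h1).2 h2, by rw [dEn_self hp hn h1]; exact h3⟩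

/-- scalar multiples -/
def smulP (t : ℝ) (z : Pr n) : Pr n :=
  ⟨fun x => t * z.u x, fun x => t • z.G x, fun x => t * z.v x, fun x => t • z.H x⟩

/-- sums -/
def addP (z w : Pr n) : Pr n :=
  ⟨fun x => z.u x + w.u x, fun x => z.G x + w.G x, fun x => z.v x + w.v x, fun x => z.H x + w.H x⟩

/-- differences -/
def subP (z w : Pr n) : Pr n :=
  ⟨fun x => z.u x - w.u x, fun x => z.G x - w.G x, fun x => z.v x - w.v x, fun x => z.H x - w.H x⟩

/-- translations -/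
def trP (y : E n) (z : Pr n) : Pr n :=
  ⟨fun x => z.u (x + y), fun x => z.G (x + y), fun x => z.v (x + y), fun x => z.H (x + y)⟩

lemma InH.smulP {z : Pr n} (h : InH z) (t : ℝ) : InH (smulP t z) := ⟨h.1.smul t, h.2.smul t⟩

lemma InH.addP {z w : Pr n} (h : InH z) (h' : InH w) : InH (addP z w) :=
  ⟨h.1.add h'.1, h.2.add h'.2⟩

lemma InH.subP {z w : Pr n} (h : InH z) (h' : InH w) : InH (subP z w) :=
  ⟨h.1.sub h'.1, h.2.sub h'.2⟩

lemma InH.trP {z : Pr n} (h : InH z) (y : E n) : InH (trP y z) := ⟨h.1.trans y, h.2.trans y⟩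

lemma int_mul_rpow (u : E n → ℝ) {t : ℝ} (ht : 0 ≤ t) (r : ℝ) :
    ∫ x, |t * u x| ^ r = t ^ r * ∫ x, |u x| ^ r := by
  rw [← integral_const_mul]
  congr 1; funext x
  rw [abs_mul, abs_of_nonneg ht, Real.mul_rpow ht (abs_nonneg _)]

lemma Af_smul (p : ℝ) (z : Pr n) {t : ℝ} (ht : 0 ≤ t) : Af p (smulP t z) = t ^ (p + 1) * Af p z :=
  int_mul_rpow z.u ht _

lemma Bff_smul (z : Pr n) {t : ℝ} (ht : 0 ≤ t) : Bff (smulP t z) = t ^ cexp n * Bff z :=
  int_mul_rpow z.v ht _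

lemma int_sq_smul (u : E n → ℝ) (t : ℝ) : ∫ x, (t * u x) ^ 2 = t ^ 2 * ∫ x, u x ^ 2 := by
  rw [← integral_const_mul]; congr 1; funext x; ring

lemma int_norm_smul (G : E n → E n) (t : ℝ) : ∫ x, ‖t • G x‖ ^ 2 = t ^ 2 * ∫ x, ‖G x‖ ^ 2 := by
  rw [← integral_const_mul]; congr 1; funext x
  rw [norm_smul, mul_pow, Real.norm_eq_abs, sq_abs]

lemma int_uv_smul (u v : E n → ℝ) (t : ℝ) :
    ∫ x, (t * u x) * (t * v x) = t ^ 2 * ∫ x, u x * v x := by
  rw [← integral_const_mul]; congr 1; funext x; ring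

lemma Qf_smul (μ ν lam : ℝ) (z : Pr n) (t : ℝ) :
    Qf μ ν lam (smulP t z) = t ^ 2 * Qf μ ν lam z := by
  unfold Qf smulP
  simp only [int_sq_smul, int_norm_smul, int_uv_smul]
  ring

lemma Kf_nonneg {p : ℝ} (hp : 1 < p) (z : Pr n) : 0 ≤ Kf p z := by
  unfold Kf
  have h1 : 0 ≤ 1 / 2 - 1 / (p + 1) := by
    rw [sub_nonneg, div_le_div_iff₀ (by linarith) (by norm_num)]; linarith
  have h2 := Af_nonneg p z
  have h3 := Bff_nonneg z
  positivity

lemma Af_tr (p : ℝ) (z : Pr n) (y : E n) : Af p (trP y z) = Af p z :=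
  integral_add_right_eq_self (fun x => |z.u x| ^ (p + 1)) y

lemma Bff_tr (z : Pr n) (y : E n) : Bff (trP y z) = Bff z :=
  integral_add_right_eq_self (fun x => |z.v x| ^ cexp n) y

lemma Qf_tr (μ ν lam : ℝ) (z : Pr n) (y : E n) : Qf μ ν lam (trP y z) = Qf μ ν lam z := by
  unfold Qf trP
  simp only
  rw [integral_add_right_eq_self (fun x => ‖z.G x‖ ^ 2) y,
    integral_add_right_eq_self (fun x => z.u x ^ 2) y,
    integral_add_right_eq_self (fun x => ‖z.H x‖ ^ 2) y,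
    integral_add_right_eq_self (fun x => z.v x ^ 2) y,
    integral_add_right_eq_self (fun x => z.u x * z.v x) y]

lemma Bf_self (μ ν lam : ℝ) (z : Pr n) : Bf μ ν lam z z = Qf μ ν lam z := by
  unfold Bf Qf
  have e1 : ∫ x, ⟪z.G x, z.G x⟫ = ∫ x, ‖z.G x‖ ^ 2 := by
    congr 1; funext x; rw [real_inner_self_eq_norm_sq]
  have e2 : ∫ x, ⟪z.H x, z.H x⟫ = ∫ x, ‖z.H x‖ ^ 2 := by
    congr 1; funext x; rw [real_inner_self_eq_norm_sq]
  have e3 : ∫ x, z.u x * z.u x = ∫ x, z.u x ^ 2 := by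
    congr 1; funext x; ring
  have e4 : ∫ x, z.v x * z.v x = ∫ x, z.v x ^ 2 := by
    congr 1; funext x; ring
  have e5 : ∫ x, z.v x * z.u x = ∫ x, z.u x * z.v x := by
    congr 1; funext x; ring
  rw [e1, e2, e3, e4, e5]
  ring

lemma sq_expand {u w : E n → ℝ} (hu : MemLp u 2 volume) (hw : MemLp w 2 volume) (s : ℝ) :
    ∫ x, (u x + s * w x) ^ 2 = (∫ x, u x ^ 2) + 2 * s * (∫ x, u x * w x) + s ^ 2 * ∫ x, w x ^ 2 := by
  have i1 : Integrable (fun x => u x ^ 2) := by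
    have := HS.integrable_sq hu
    simpa only [Real.norm_eq_abs, sq_abs] using this
  have i2 : Integrable (fun x => w x ^ 2) := by
    have := HS.integrable_sq hw
    simpa only [Real.norm_eq_abs, sq_abs] using this
  have i3 := int_uv hu hw
  rw [← integral_const_mul, ← integral_const_mul, ← integral_add i1 (i3.const_mul _)]
  have i12 : Integrable (fun x => u x ^ 2 + 2 * s * (u x * w x)) := i1.add (i3.const_mul _)
  rw [← integral_add i12 (i2.const_mul _)]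
  congr 1; funext x; ring

lemma norm_expand {G W : E n → E n} (hu : MemLp G 2 volume) (hw : MemLp W 2 volume) (s : ℝ) :
    ∫ x, ‖G x + s • W x‖ ^ 2 =
      (∫ x, ‖G x‖ ^ 2) + 2 * s * (∫ x, ⟪G x, W x⟫) + s ^ 2 * ∫ x, ‖W x‖ ^ 2 := by
  have i1 := HS.integrable_sq hu
  have i2 := HS.integrable_sq hw
  have i3 := HS.integrable_inner' hu hw
  rw [← integral_const_mul, ← integral_const_mul, ← integral_add i1 (i3.const_mul _)]
  have i12 : Integrable (fun x => ‖G x‖ ^ 2 + 2 * s * ⟪G x, W x⟫) := i1.add (i3.const_mul _)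
  rw [← integral_add i12 (i2.const_mul _)]
  congr 1; funext x
  rw [norm_add_sq_real, inner_smul_right, norm_smul, mul_pow, Real.norm_eq_abs, sq_abs]
  ring

lemma mul_expand {u w v k : E n → ℝ} (hu : MemLp u 2 volume) (hw : MemLp w 2 volume)
    (hv : MemLp v 2 volume) (hk : MemLp k 2 volume) (s : ℝ) :
    ∫ x, (u x + s * w x) * (v x + s * k x) = (∫ x, u x * v x) +
      s * ((∫ x, u x * k x) + ∫ x, v x * w x) + s ^ 2 * ∫ x, w x * k x := by
  have i1 := int_uv hu hv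
  have i2 := int_uv hu hk
  have i3 := int_uv hv hw
  have i4 := int_uv hw hk
  rw [← integral_add i2 i3, ← integral_const_mul, ← integral_const_mul]
  have i23 : Integrable (fun x => u x * k x + v x * w x) := i2.add i3
  rw [← integral_add i1 (i23.const_mul _)]
  have i123 : Integrable (fun x => u x * v x + s * (u x * k x + v x * w x)) :=
    i1.add (i23.const_mul _)
  rw [← integral_add i123 (i4.const_mul _)]
  congr 1; funext x; ring

/-- Expansion of the quadratic form. -/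
lemma Qf_expand {μ ν lam : ℝ} {z w : Pr n} (hz : InH z) (hw : InH w) (s : ℝ) :
    Qf μ ν lam (addP z (smulP s w)) =
      Qf μ ν lam z + 2 * s * Bf μ ν lam z w + s ^ 2 * Qf μ ν lam w := by
  unfold Qf Bf addP smulP
  simp only
  rw [sq_expand hz.1.mu hw.1.mu, sq_expand hz.2.mu hw.2.mu, norm_expand hz.1.mG hw.1.mG,
    norm_expand hz.2.mG hw.2.mG, mul_expand hz.1.mu hw.1.mu hz.2.mu hw.2.mu]
  ring

lemma subP_eq (z w : Pr n) : subP z w = addP z (smulP (-1) w) := by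
  unfold subP addP smulP
  simp only [neg_one_mul, neg_smul, one_smul, sub_eq_add_neg]

lemma Qf_sub {μ ν lam : ℝ} {z w : Pr n} (hz : InH z) (hw : InH w) :
    Qf μ ν lam (subP z w) = Qf μ ν lam z - 2 * Bf μ ν lam z w + Qf μ ν lam w := by
  rw [subP_eq, Qf_expand hz hw]
  ring

/-- Coercivity. -/
lemma coercive {μ ν lb : ℝ} (hμ : 0 < μ) (hν : 0 < ν) (h0 : 0 < lb) (hlb : lb < Real.sqrt (μ * ν)) :
    ∃ c : ℝ, 0 < c ∧ ∀ lam : ℝ, 0 ≤ lam → lam ≤ lb → ∀ z : Pr n, InH z →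
      (∫ x, ‖z.G x‖ ^ 2) + (∫ x, ‖z.H x‖ ^ 2) + c * ((∫ x, z.u x ^ 2) + ∫ x, z.v x ^ 2) ≤
        Qf μ ν lam z := by
  have hlb2 : lb ^ 2 < μ * ν := by
    have := Real.sq_sqrt (show 0 ≤ μ * ν by positivity)
    nlinarith
  obtain ⟨c, hc⟩ : ∃ c, c = (μ * ν - lb ^ 2) / (μ + ν) := ⟨_, rfl⟩
  have hc0 : 0 < c := by rw [hc]; apply div_pos <;> linarith
  have hcm : c * (μ + ν) = μ * ν - lb ^ 2 := by rw [hc]; field_simp
  have hcμ : c < μ := by
    by_contra h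
    push Not at h
    nlinarith [mul_pos hμ hν]
  have hcν : c < ν := by
    by_contra h
    push Not at h
    nlinarith [mul_pos hμ hν]
  have hprod : lb ^ 2 ≤ (μ - c) * (ν - c) := by nlinarith [sq_nonneg c]
  refine ⟨c, hc0, fun lam hl0 hl z hz => ?_⟩
  have hpt : ∀ a b : ℝ, 2 * lam * (a * b) ≤ (μ - c) * a ^ 2 + (ν - c) * b ^ 2 := by
    intro a b
    have h1 : lam ^ 2 ≤ (μ - c) * (ν - c) := by nlinarith
    have h2 : 0 < μ - c := by linarith
    have h3 : 0 ≤ ((μ - c) * a - lam * b) ^ 2 := sq_nonneg _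
    have h4 : 0 ≤ ((μ - c) * (ν - c) - lam ^ 2) * b ^ 2 :=
      mul_nonneg (by linarith) (sq_nonneg _)
    have h5 : 0 ≤ (μ - c) * ((μ - c) * a ^ 2 + (ν - c) * b ^ 2 - 2 * lam * (a * b)) := by
      nlinarith
    have h6 := nonneg_of_mul_nonneg_right h5 h2
    linarith
  have h1 : 2 * lam * (∫ x, z.u x * z.v x) ≤ (μ - c) * (∫ x, z.u x ^ 2) +
      (ν - c) * ∫ x, z.v x ^ 2 := by
    rw [← integral_const_mul, ← integral_const_mul, ← integral_const_mul,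
      ← integral_add (hz.1.int_sq.const_mul _) (hz.2.int_sq.const_mul _)]
    apply integral_mono ((int_uv hz.1.mu hz.2.mu).const_mul _)
      ((hz.1.int_sq.const_mul _).add (hz.2.int_sq.const_mul _))
    intro x
    exact hpt _ _
  unfold Qf
  linarith

end

end Pool.Agent.R217.CW
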