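import Pool.Agent.R217.CW.Neh
import Pool.Agent.R217.HS.Cpt2
import Pool.Agent.R217.HS.Lions

set_option autoImplicit false
set_option linter.unusedSectionVars false

open MeasureTheory Filter Topology
open scoped ContDiff ENNReal NNReal RealInnerProductSpace

namespace Pool.Agent.R217.CW

open Pool.Agent.R217.BN (E cexp sobS)
open Pool.Agent.R217.HS (IsH1 Tst subC)

variable {n : ℕ}

lemma trP_InM {p μ ν lam : ℝ} (hp : 1 < p) (hn : 3 ≤ n) {z : Pr n} (hz : InM p μ ν lam z)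
    (y : E n) : InM p μ ν lam (trP y z) := by
  obtain ⟨h1, h2, h3⟩ := (inM_iff hp hn).1 hz
  refine (inM_iff hp hn).2 ⟨h1.trP y, ?_, ?_⟩
  · unfold trP
    simp only
    rw [integral_add_right_eq_self (fun x => z.u x ^ 2) y,
      integral_add_right_eq_self (fun x => z.v x ^ 2) y]
    exact h2
  · unfold Nf
    rw [Qf_tr, Af_tr, Bff_tr]
    exact h3

lemma trP_Kf {p : ℝ} (z : Pr n) (y : E n) : Kf p (trP y z) = Kf p z := by
  unfold Kf
  rw [Af_tr, Bff_tr]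

lemma abs_int_uv {z : Pr n} (hz : InH z) :
    |∫ x, z.u x * z.v x| ≤ (∫ x, z.u x ^ 2) + ∫ x, z.v x ^ 2 := by
  rw [← integral_add hz.1.int_sq hz.2.int_sq]
  refine abs_integral_le_integral_abs.trans ?_
  apply integral_mono (int_uv hz.1.mu hz.2.mu).abs (hz.1.int_sq.add hz.2.int_sq)
  intro x
  change |z.u x * z.v x| ≤ z.u x ^ 2 + z.v x ^ 2
  rw [abs_le]
  constructor <;> nlinarith [sq_nonneg (z.u x - z.v x), sq_nonneg (z.u x + z.v x), sq_nonneg (z.u x), sq_nonneg (z.v x)]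

/-- The convergence of pairs used below. -/
structure Cv (z : ℕ → Pr n) (w : Pr n) : Prop where
  wu : ∀ f : E n → ℝ, MemLp f 2 volume →
    Tendsto (fun k => ∫ x, (z k).u x * f x) atTop (𝓝 (∫ x, w.u x * f x))
  wv : ∀ f : E n → ℝ, MemLp f 2 volume →
    Tendsto (fun k => ∫ x, (z k).v x * f x) atTop (𝓝 (∫ x, w.v x * f x))
  wG : ∀ W : E n → E n, MemLp W 2 volume →
    Tendsto (fun k => ∫ x, ⟪(z k).G x, W x⟫) atTop (𝓝 (∫ x, ⟪w.G x, W x⟫))
  wH : ∀ W : E n → E n, MemLp W 2 volume →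
    Tendsto (fun k => ∫ x, ⟪(z k).H x, W x⟫) atTop (𝓝 (∫ x, ⟪w.H x, W x⟫))
  au : ∀ᵐ x ∂(volume : Measure (E n)), Tendsto (fun k => (z k).u x) atTop (𝓝 (w.u x))
  av : ∀ᵐ x ∂(volume : Measure (E n)), Tendsto (fun k => (z k).v x) atTop (𝓝 (w.v x))
  cu : ∀ R : ℕ, HS.LTo volume (fun k x => HS.chi n R x * (z k).u x)
    (fun x => HS.chi n R x * w.u x)

/-- Compactness for pairs. -/
lemma exists_Cv (hn : 3 ≤ n) {z : ℕ → Pr n} (hz : ∀ k, InH (z k)) {M : ℝ}
    (hM1 : ∀ k, (∫ x, ‖(z k).G x‖ ^ 2) + (∫ x, (z k).u x ^ 2) ≤ M)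
    (hM2 : ∀ k, (∫ x, ‖(z k).H x‖ ^ 2) + (∫ x, (z k).v x ^ 2) ≤ M) :
    ∃ (w : Pr n) (ns : ℕ → ℕ), StrictMono ns ∧ InH w ∧ Cv (fun k => z (ns k)) w := by
  obtain ⟨u, G, n1, hn1, hu, a1, a2, a3, a4⟩ := HS.loc_compact (by omega) (fun k => (hz k).1) hM1
  obtain ⟨v, H, n2, hn2, hv, b1, b2, b3, b4⟩ := HS.loc_compact (by omega)
    (fun k => (hz (n1 k)).2) (fun k => hM2 (n1 k))
  have ht := hn2.tendsto_atTop
  refine ⟨⟨u, G, v, H⟩, fun k => n1 (n2 k), hn1.comp hn2, ⟨hu, hv⟩, ?_⟩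
  refine ⟨fun f hf => (a1 f hf).comp ht, b1, fun W hW => (a2 W hW).comp ht, b2, ?_, b4, ?_⟩
  · filter_upwards [a4] with x hx
    exact hx.comp ht
  · intro R
    exact (a3 R).comp ht

/-- Splitting of the quadratic form. -/
lemma Cv.Q {μ ν lam : ℝ} {z : ℕ → Pr n} {w : Pr n} (h : Cv z w) (hz : ∀ k, InH (z k))
    (hw : InH w) :
    Tendsto (fun k => Qf μ ν lam (z k) - Qf μ ν lam (subP (z k) w)) atTop
      (𝓝 (Qf μ ν lam w)) := by
  have hB : Tendsto (fun k => Bf μ ν lam (z k) w) atTop (𝓝 (Bf μ ν lam w w)) := by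
    unfold Bf
    refine Tendsto.sub (Tendsto.add (Tendsto.add (Tendsto.add ?_ ?_) ?_) ?_) ?_
    · exact h.wG _ hw.1.mG
    · exact (h.wu _ hw.1.mu).const_mul μ
    · exact h.wH _ hw.2.mG
    · exact (h.wv _ hw.2.mu).const_mul ν
    · exact ((h.wu _ hw.2.mu).add (h.wv _ hw.1.mu)).const_mul lam
  rw [Bf_self] at hB
  have h2 : ∀ k, Qf μ ν lam (z k) - Qf μ ν lam (subP (z k) w) =
      2 * Bf μ ν lam (z k) w - Qf μ ν lam w := by
    intro k
    rw [Qf_sub (hz k) hw]; ring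
  simp_rw [h2]
  have h3 := (hB.const_mul 2).sub_const (Qf μ ν lam w)
  rwa [show 2 * Qf μ ν lam w - Qf μ ν lam w = Qf μ ν lam w by ring] at h3

/-- The general existence theorem. -/
theorem exists_min (hn : 3 ≤ n) {p μ ν : ℝ} (hp : 1 < p) (hp' : p + 1 < cexp n)
    (hμ : 0 < μ) (hν : 0 < ν) {Λ lb : ℝ} (hΛ0 : 0 < Λ) (hlb : lb < Real.sqrt (μ * ν))
    {lam : ℕ → ℝ} (hl : Tendsto lam atTop (𝓝 Λ)) (hl0 : ∀ k, 0 < lam k) (hl1 : ∀ k, lam k ≤ lb)
    {z : ℕ → Pr n} (hz : ∀ k, InM p μ ν (lam k) (z k)) (hu : ∀ k, 0 < ∫ x, (z k).u x ^ 2)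
    (hE : ∀ k, Kf p (z k) ≤ 1 / n * sobS n ^ ((n:ℝ) / 2))
    {l : ℝ} (hK : Tendsto (fun k => Kf p (z k)) atTop (𝓝 l)) (hlm : l ≤ lev n p μ ν Λ) :
    ∃ w : Pr n, InM p μ ν Λ w ∧ Kf p w = lev n p μ ν Λ := by
  have hn3 : (3:ℝ) ≤ n := by exact_mod_cast hn
  have hκ := kappa_pos hp
  have hc2 := HS.two_lt_cexp hn
  have hlb0 : 0 < lb := (hl0 0).trans_le (hl1 0)
  have hΛlb : Λ ≤ lb := le_of_tendsto' hl hl1
  have hΛ1 : Λ < Real.sqrt (μ * ν) := hΛlb.trans_lt hlb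
  obtain ⟨c, hc, hcc⟩ := coercive (n := n) hμ hν hlb0 hlb
  obtain ⟨α, hα, hαα⟩ := nonvanishing (n := n) hn hp hp' hμ hν hlb0 hlb
  obtain ⟨EE, hEE⟩ : ∃ EE, EE = 1 / n * sobS n ^ ((n:ℝ) / 2) := ⟨_, rfl⟩
  -- bounds
  have hA : ∀ k, α ≤ Af p (z k) := fun k => hαα (lam k) (hl0 k) (hl1 k) (z k) (hz k) (hu k) (hE k)
  obtain ⟨MA, hMA⟩ : ∃ MA, ∀ k, Af p (z k) ≤ MA := by
    refine ⟨EE / (1 / 2 - 1 / (p + 1)), fun k => ?_⟩
    rw [le_div_iff₀ hκ]
    have h1 := hE k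
    have h2 := Bff_nonneg (z k)
    unfold Kf at h1
    have h3 : 0 ≤ 1 / (n:ℝ) * Bff (z k) := by positivity
    rw [hEE]; linarith
  obtain ⟨MB, hMB⟩ : ∃ MB, ∀ k, Bff (z k) ≤ MB := by
    refine ⟨EE * n, fun k => ?_⟩
    have h1 := hE k
    have h2 := Af_nonneg p (z k)
    unfold Kf at h1
    have h3 : 0 ≤ (1 / 2 - 1 / (p + 1)) * Af p (z k) := by positivity
    have h4 : 1 / (n:ℝ) * Bff (z k) ≤ EE := by rw [hEE]; linarith
    rw [one_div, inv_mul_le_iff₀ (by positivity)] at h4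
    linarith
  have hQ : ∀ k, Qf μ ν (lam k) (z k) ≤ MA + MB := by
    intro k
    have h1 := ((inM_iff hp hn).1 (hz k)).2.2
    unfold Nf at h1
    linarith [hMA k, hMB k]
  obtain ⟨M, hM⟩ : ∃ M, M = (MA + MB) + (MA + MB) / c := ⟨_, rfl⟩
  have hzH : ∀ k, InH (z k) := fun k => ((inM_iff hp hn).1 (hz k)).1
  have hcb : ∀ k, (∫ x, ‖(z k).G x‖ ^ 2) + (∫ x, ‖(z k).H x‖ ^ 2) +
      c * ((∫ x, (z k).u x ^ 2) + ∫ x, (z k).v x ^ 2) ≤ MA + MB := fun k =>
    (hcc (lam k) (hl0 k).le (hl1 k) (z k) (hzH k)).trans (hQ k)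
  have gG : ∀ k, 0 ≤ ∫ x, ‖(z k).G x‖ ^ 2 := fun k => integral_nonneg fun x => by positivity
  have gH : ∀ k, 0 ≤ ∫ x, ‖(z k).H x‖ ^ 2 := fun k => integral_nonneg fun x => by positivity
  have gu : ∀ k, 0 ≤ ∫ x, (z k).u x ^ 2 := fun k => integral_nonneg fun x => by positivity
  have gv : ∀ k, 0 ≤ ∫ x, (z k).v x ^ 2 := fun k => integral_nonneg fun x => by positivity
  have huv : ∀ k, (∫ x, (z k).u x ^ 2) + (∫ x, (z k).v x ^ 2) ≤ (MA + MB) / c := by
    intro k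
    rw [le_div_iff₀ hc]
    linarith [hcb k, gG k, gH k]
  have hM1 : ∀ k, (∫ x, ‖(z k).G x‖ ^ 2) + (∫ x, (z k).u x ^ 2) ≤ M := by
    intro k
    have h1 : 0 ≤ c * ((∫ x, (z k).u x ^ 2) + ∫ x, (z k).v x ^ 2) :=
      mul_nonneg hc.le (add_nonneg (gu k) (gv k))
    rw [hM]
    linarith [hcb k, gG k, gH k, huv k, gv k]
  have hM2 : ∀ k, (∫ x, ‖(z k).H x‖ ^ 2) + (∫ x, (z k).v x ^ 2) ≤ M := by
    intro k
    have h1 : 0 ≤ c * ((∫ x, (z k).u x ^ 2) + ∫ x, (z k).v x ^ 2) :=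
      mul_nonneg hc.le (add_nonneg (gu k) (gv k))
    rw [hM]
    linarith [hcb k, gG k, gH k, huv k, gu k]
  -- translations
  obtain ⟨β, hβ, hβ2⟩ := HS.lions (n := n) hn (q := p + 1) (by linarith) hp' (M := M) hα
  choose y hy using fun k => hβ2 (z k).u (z k).G (hzH k).1 (hM1 k) (hA k)
  let ζ : ℕ → Pr n := fun k => trP (y k) (z k)
  have hζ : ∀ k, InM p μ ν (lam k) (ζ k) := fun k => trP_InM hp hn (hz k) (y k)
  have hζH : ∀ k, InH (ζ k) := fun k => (hzH k).trP (y k)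
  have tG : ∀ k, ∫ x, ‖(ζ k).G x‖ ^ 2 = ∫ x, ‖(z k).G x‖ ^ 2 := fun k =>
    integral_add_right_eq_self (fun x => ‖(z k).G x‖ ^ 2) (y k)
  have tH : ∀ k, ∫ x, ‖(ζ k).H x‖ ^ 2 = ∫ x, ‖(z k).H x‖ ^ 2 := fun k =>
    integral_add_right_eq_self (fun x => ‖(z k).H x‖ ^ 2) (y k)
  have tu : ∀ k, ∫ x, (ζ k).u x ^ 2 = ∫ x, (z k).u x ^ 2 := fun k =>
    integral_add_right_eq_self (fun x => (z k).u x ^ 2) (y k)
  have tv : ∀ k, ∫ x, (ζ k).v x ^ 2 = ∫ x, (z k).v x ^ 2 := fun k =>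
    integral_add_right_eq_self (fun x => (z k).v x ^ 2) (y k)
  have hball : ∀ k, β ≤ ∫ x in Metric.ball (0 : E n) 3, (ζ k).u x ^ 2 := by
    intro k
    refine (hy k).trans_eq ?_
    rw [← integral_indicator Metric.isOpen_ball.measurableSet,
      ← integral_indicator Metric.isOpen_ball.measurableSet]
    rw [← integral_add_right_eq_self (μ := (volume : Measure (E n)))
      (fun x => (Metric.ball (y k) 3).indicator (fun x => (z k).u x ^ 2) x) (y k)]
    congr 1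
    funext x
    by_cases hx : x ∈ Metric.ball (0 : E n) 3
    · have hx2 : x + y k ∈ Metric.ball (y k) 3 := by
        simpa [dist_eq_norm] using hx
      rw [Set.indicator_of_mem hx, Set.indicator_of_mem hx2]
      rfl
    · have hx2 : x + y k ∉ Metric.ball (y k) 3 := by
        simpa [dist_eq_norm] using hx
      rw [Set.indicator_of_notMem hx, Set.indicator_of_notMem hx2]
  obtain ⟨w, ns, hns, hw, hcv⟩ := exists_Cv hn hζH (M := M)
    (fun k => by rw [tG, tu]; exact hM1 k) (fun k => by rw [tH, tv]; exact hM2 k)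
  -- the limit does not vanish
  have hwu : 0 < ∫ x, w.u x ^ 2 := by
    have h1 := (hcv.cu 2).sq (fun k => HS.memLp_chi (hζH _).1.mu 2) (HS.memLp_chi hw.1.mu 2)
    simp only [Real.norm_eq_abs, sq_abs] at h1
    have h2 : ∀ k, β ≤ ∫ x, (HS.chi n 2 x * (ζ (ns k)).u x) ^ 2 := by
      intro k
      refine (hball (ns k)).trans ?_
      have hi : Integrable (fun x => (HS.chi n 2 x * (ζ (ns k)).u x) ^ 2) := by
        have := HS.integrable_sq (HS.memLp_chi (hζH (ns k)).1.mu 2)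
        simpa only [Real.norm_eq_abs, sq_abs] using this
      calc ∫ x in Metric.ball (0 : E n) 3, (ζ (ns k)).u x ^ 2 =
            ∫ x in Metric.ball (0 : E n) 3, (HS.chi n 2 x * (ζ (ns k)).u x) ^ 2 := by
            apply setIntegral_congr_fun Metric.isOpen_ball.measurableSet
            intro x hx
            have hx' : ‖x‖ < 3 := by simpa using hx
            dsimp only
            rw [HS.chi_one (by push_cast; linarith), one_mul]
        _ ≤ ∫ x, (HS.chi n 2 x * (ζ (ns k)).u x) ^ 2 :=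
            setIntegral_le_integral hi (Eventually.of_forall fun x => by positivity)
    have h3 : β ≤ ∫ x, (HS.chi n 2 x * w.u x) ^ 2 := ge_of_tendsto' h1 h2
    have h4 : ∫ x, (HS.chi n 2 x * w.u x) ^ 2 ≤ ∫ x, w.u x ^ 2 := by
      apply integral_mono
      · have := HS.integrable_sq (HS.memLp_chi hw.1.mu 2)
        simpa only [Real.norm_eq_abs, sq_abs] using this
      · exact hw.1.int_sq
      · intro x
        dsimp only
        rw [mul_pow]
        have b1 := HS.chi_nonneg (n := n) 2 x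
        have b2 := HS.chi_le (n := n) 2 x
        have b3 : (HS.chi n 2 x) ^ 2 ≤ 1 := by nlinarith
        nlinarith [sq_nonneg (w.u x)]
    linarith
  have hwnz : 0 < (∫ x, w.u x ^ 2) + ∫ x, w.v x ^ 2 := by
    have : 0 ≤ ∫ x, w.v x ^ 2 := integral_nonneg fun x => by positivity
    linarith
  have hAw : 0 < Af p w := pos_of_nz_u hp hw (hw.1.int_rpow hn (by linarith) hp'.le) hwu
  -- splitting
  obtain ⟨X, hX⟩ : ∃ X : ℕ → Pr n, X = fun k => subP (ζ (ns k)) w := ⟨_, rfl⟩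
  have hXH : ∀ k, InH (X k) := fun k => by rw [hX]; exact (hζH _).subP hw
  have sA : Tendsto (fun k => Af p (ζ (ns k)) - Af p (X k)) atTop (𝓝 (Af p w)) := by
    rw [hX]
    exact HS.brezis_lieb (q := p + 1) (by linarith)
      (fun k => (hζH _).1.int_rpow hn (by linarith) hp'.le) (hw.1.int_rpow hn (by linarith) hp'.le)
      (fun k => (hζH _).1.mu.1) hw.1.mu.1 (M := MA)
      (fun k => by
        have : Af p (ζ (ns k)) ≤ MA := by rw [Af_tr]; exact hMA _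
        exact this) hcv.au
  have sB : Tendsto (fun k => Bff (ζ (ns k)) - Bff (X k)) atTop (𝓝 (Bff w)) := by
    rw [hX]
    exact HS.brezis_lieb (q := cexp n) (by linarith)
      (fun k => ((hζH _).2.sobolev' hn).1) (hw.2.sobolev' hn).1
      (fun k => (hζH _).2.mu.1) hw.2.mu.1 (M := MB)
      (fun k => by
        have : Bff (ζ (ns k)) ≤ MB := by rw [Bff_tr]; exact hMB _
        exact this) hcv.av
  have sQ : Tendsto (fun k => Qf μ ν Λ (ζ (ns k)) - Qf μ ν Λ (X k)) atTop (𝓝 (Qf μ ν Λ w)) := by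
    rw [hX]
    exact hcv.Q (fun k => hζH _) hw
  -- N_Λ(ζ) → 0
  have hNζ : Tendsto (fun k => Nf p μ ν Λ (ζ (ns k))) atTop (𝓝 0) := by
    have e : ∀ k, Nf p μ ν Λ (ζ (ns k)) =
        2 * (lam (ns k) - Λ) * ∫ x, (ζ (ns k)).u x * (ζ (ns k)).v x := by
      intro k
      have h1 := ((inM_iff hp hn).1 (hζ (ns k))).2.2
      unfold Nf Qf at h1 ⊢
      linarith
    simp_rw [e]
    apply squeeze_zero_norm (a := fun k => 2 * |lam (ns k) - Λ| * ((MA + MB) / c))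
    · intro k
      rw [Real.norm_eq_abs, abs_mul, abs_mul, abs_two]
      gcongr
      refine (abs_int_uv (hζH _)).trans ?_
      rw [tu, tv]
      exact huv _
    · have h1 : Tendsto (fun k => lam (ns k) - Λ) atTop (𝓝 0) := by
        have := (hl.comp hns.tendsto_atTop).sub_const Λ
        rwa [sub_self] at this
      have h2 := (h1.abs.const_mul 2).mul_const ((MA + MB) / c)
      rwa [abs_zero, mul_zero, zero_mul] at h2
  have sN : Tendsto (fun k => Nf p μ ν Λ (X k)) atTop (𝓝 (-Nf p μ ν Λ w)) := by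
    have h1 := hNζ.sub ((sQ.sub sA).sub sB)
    rw [zero_sub] at h1
    refine h1.congr fun k => ?_
    unfold Nf
    ring
  have sK : Tendsto (fun k => Kf p (X k)) atTop (𝓝 (l - Kf p w)) := by
    have h0 : Tendsto (fun k => Kf p (ζ (ns k))) atTop (𝓝 l) := by
      have := hK.comp hns.tendsto_atTop
      refine this.congr fun k => ?_
      exact (trP_Kf (z (ns k)) (y (ns k))).symm
    have h1 := h0.sub ((sA.const_mul (1 / 2 - 1 / (p + 1))).add (sB.const_mul (1 / (n:ℝ))))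
    refine h1.congr fun k => ?_
    unfold Kf
    ring
  have hKw : 0 < Kf p w := by
    unfold Kf
    have h1 : 0 < (1 / 2 - 1 / (p + 1)) * Af p w := by positivity
    have h2 : 0 ≤ 1 / (n:ℝ) * Bff w := mul_nonneg (by positivity) (Bff_nonneg w)
    linarith
  have hKle : Kf p w ≤ l := by
    have : 0 ≤ l - Kf p w := ge_of_tendsto' sK fun k => Kf_nonneg hp _
    linarith
  -- trichotomy
  have hN0 : Nf p μ ν Λ w = 0 := by
    rcases lt_trichotomy (Nf p μ ν Λ w) 0 with h | h | h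
    · exfalso
      have := (lev_le_of_neg hn hp hμ hν hΛ0 hΛ1 hw hwnz h.le).2 h
      linarith
    · exact h
    · exfalso
      have ev1 : ∀ᶠ k in atTop, Nf p μ ν Λ (X k) < 0 :=
        sN.eventually (gt_mem_nhds (by linarith))
      have ev2 : ∀ᶠ k in atTop, Kf p (X k) < l :=
        sK.eventually (gt_mem_nhds (by linarith))
      obtain ⟨k, hk1, hk2⟩ := (ev1.and ev2).exists
      have hnzX : 0 < (∫ x, (X k).u x ^ 2) + ∫ x, (X k).v x ^ 2 := by
        have g1 : 0 ≤ ∫ x, (X k).u x ^ 2 := integral_nonneg fun x => by positivity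
        have g2 : 0 ≤ ∫ x, (X k).v x ^ 2 := integral_nonneg fun x => by positivity
        have hQ0 : 0 ≤ Qf μ ν Λ (X k) := by
          have h5 := hcc Λ hΛ0.le hΛlb (X k) (hXH k)
          have g3 : 0 ≤ ∫ x, ‖(X k).G x‖ ^ 2 := integral_nonneg fun x => by positivity
          have g4 : 0 ≤ ∫ x, ‖(X k).H x‖ ^ 2 := integral_nonneg fun x => by positivity
          have g5 : 0 ≤ c * ((∫ x, (X k).u x ^ 2) + ∫ x, (X k).v x ^ 2) :=
            mul_nonneg hc.le (add_nonneg g1 g2)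
          linarith
        rcases eq_or_lt_of_le (Af_nonneg p (X k)) with hA0 | hA0
        · have hB0 : 0 < Bff (X k) := by
            unfold Nf at hk1
            linarith
          have := Bff_pos_nz hn (hXH k) hB0
          linarith
        · have := Af_pos_nz hp (hXH k) hA0
          linarith
      have := (lev_le_of_neg hn hp hμ hν hΛ0 hΛ1 (hXH k) hnzX hk1.le).1
      linarith
  refine ⟨w, (inM_iff hp hn).2 ⟨hw, hwnz, hN0⟩, ?_⟩
  have := (lev_le_of_neg hn hp hμ hν hΛ0 hΛ1 hw hwnz hN0.le).1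
  linarith

end Pool.Agent.R217.CW
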