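import Pool.Agent.R217.CW.Neh
import Pool.Agent.R217.HS.Der

set_option autoImplicit false
set_option linter.unusedSectionVars false

open MeasureTheory Filter Topology
open scoped ContDiff ENNReal NNReal RealInnerProductSpace

namespace Pool.Agent.R217.CW

open Pool.Agent.R217.BN (E cexp sobS)
open Pool.Agent.R217.HS (IsH1 Tst subC)

variable {n : ℕ}

/-- The energy threshold. -/
noncomputable def EE (n : ℕ) : ℝ := 1 / n * sobS n ^ ((n:ℝ) / 2)

lemma EE_pos (hn : 3 ≤ n) : 0 < EE n := by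
  have hn3 : (3:ℝ) ≤ n := by exact_mod_cast hn
  have hS := BN.sobS_pos hn
  unfold EE; positivity

/-- A bump function. -/
lemma exists_tst (n : ℕ) : ∃ ψ : E n → ℝ, Tst ψ ∧ ψ ≠ 0 := by
  let η : ContDiffBump (0 : E n) := ⟨1, 2, one_pos, one_lt_two⟩
  refine ⟨η, ⟨η.contDiff, η.hasCompactSupport⟩, ?_⟩
  intro h
  have h1 := congrFun h 0
  rw [η.one_of_mem_closedBall (by simp [η])] at h1
  simp at h1

/-- The test pair `(a φ(c x), b φ(c x))`. -/
noncomputable def tp (φ : E n → ℝ) (c a b : ℝ) : Pr n :=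
  ⟨fun x => a * φ (c • x), fun x => a • gradient (fun y => φ (c • y)) x,
    fun x => b * φ (c • x), fun x => b • gradient (fun y => φ (c • y)) x⟩

lemma tp_InH {φ : E n → ℝ} (h : Tst φ) {c : ℝ} (hc : 0 < c) (a b : ℝ) : InH (tp φ c a b) :=
  ⟨(h.dil hc).isH1.smul a, (h.dil hc).isH1.smul b⟩

lemma tp_Af {φ : E n → ℝ} {c a b : ℝ} (hc : 0 < c) (ha : 0 ≤ a) (p : ℝ) :
    Af p (tp φ c a b) = a ^ (p + 1) * ((c ^ n)⁻¹ * ∫ x, |φ x| ^ (p + 1)) := by
  unfold Af tp
  simp only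
  rw [int_mul_rpow (fun x => φ (c • x)) ha, HS.int_dil (fun y => |φ y| ^ (p + 1)) hc]

lemma tp_Bff {φ : E n → ℝ} {c a b : ℝ} (hc : 0 < c) (hb : 0 ≤ b) :
    Bff (tp φ c a b) = b ^ cexp n * ((c ^ n)⁻¹ * ∫ x, |φ x| ^ cexp n) := by
  unfold Bff tp
  simp only
  rw [int_mul_rpow (fun x => φ (c • x)) hb, HS.int_dil (fun y => |φ y| ^ cexp n) hc]

lemma tp_Qf {φ : E n → ℝ} (h : Tst φ) {c a b : ℝ} (hc : 0 < c) (μ ν lam : ℝ) :
    Qf μ ν lam (tp φ c a b) = (c ^ n)⁻¹ * ((a ^ 2 + b ^ 2) * c ^ 2 * (∫ x, ‖gradient φ x‖ ^ 2) +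
      (μ * a ^ 2 + ν * b ^ 2 - 2 * lam * (a * b)) * ∫ x, φ x ^ 2) := by
  unfold Qf tp
  simp only
  rw [int_norm_smul, int_norm_smul, h.int_grad_dil hc,
    int_sq_smul (fun x => φ (c • x)), int_sq_smul (fun x => φ (c • x)),
    HS.int_dil (fun y => φ y ^ 2) hc]
  have : ∫ x, (a * φ (c • x)) * (b * φ (c • x)) = (a * b) * ((c ^ n)⁻¹ * ∫ x, φ x ^ 2) := by
    rw [← HS.int_dil (fun y => φ y ^ 2) hc, ← integral_const_mul]
    congr 1; funext x; ring
  rw [this]
  ring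

lemma tp_nz {φ : E n → ℝ} (h : Tst φ) (h0 : φ ≠ 0) {c a b : ℝ} (hc : 0 < c)
    (hab : 0 < a ^ 2 + b ^ 2) :
    0 < (∫ x, (tp φ c a b).u x ^ 2) + ∫ x, (tp φ c a b).v x ^ 2 := by
  unfold tp
  simp only
  rw [int_sq_smul (fun x => φ (c • x)), int_sq_smul (fun x => φ (c • x)),
    HS.int_dil (fun y => φ y ^ 2) hc]
  have hp : 0 < ∫ x, φ x ^ 2 := by
    have := h.rpow_pos h0 (r := 2) (by norm_num)
    simpa only [Real.rpow_two, sq_abs] using this
  rw [← add_mul]
  positivity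

/-- The level does not exceed the threshold. -/
lemma lev_le_EE (hn : 3 ≤ n) {p μ ν lam : ℝ} (hp : 1 < p) (hμ : 0 < μ) (hν : 0 < ν)
    (h0 : 0 < lam) (h1 : lam < Real.sqrt (μ * ν)) : lev n p μ ν lam ≤ EE n := by
  have hn3 : (3:ℝ) ≤ n := by exact_mod_cast hn
  have hS := BN.sobS_pos hn
  have hc2 := HS.two_lt_cexp hn
  have hc0 : 0 < cexp n := by linarith
  -- bound by the Rayleigh quotient
  have key : ∀ r ∈ {r | ∃ u : E n → ℝ, ContDiff ℝ ∞ u ∧ HasCompactSupport u ∧ u ≠ 0 ∧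
      r = (∫ x, ‖gradient u x‖ ^ 2) / (∫ x, |u x| ^ cexp n) ^ (2 / cexp n)},
      lev n p μ ν lam ≤ 1 / n * r ^ ((n:ℝ) / 2) := by
    rintro r ⟨ψ, hψ1, hψ2, hψ0, rfl⟩
    have hψ : Tst ψ := ⟨hψ1, hψ2⟩
    obtain ⟨D, hD⟩ : ∃ D, D = ∫ x, ‖gradient ψ x‖ ^ 2 := ⟨_, rfl⟩
    obtain ⟨L, hL⟩ : ∃ L, L = ∫ x, ψ x ^ 2 := ⟨_, rfl⟩
    obtain ⟨B, hB⟩ : ∃ B, B = ∫ x, |ψ x| ^ cexp n := ⟨_, rfl⟩
    rw [← hD, ← hB]
    have hB0 : 0 < B := by rw [hB]; exact hψ.rpow_pos hψ0 hc0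
    have hD0 : 0 ≤ D := by rw [hD]; exact integral_nonneg fun x => by positivity
    have hL0 : 0 < L := by
      rw [hL]
      have := hψ.rpow_pos hψ0 (r := 2) (by norm_num)
      simpa only [Real.rpow_two, sq_abs] using this
    have hall : ∀ c : ℝ, 0 < c → lev n p μ ν lam ≤
        1 / n * ((D + ν * L / c ^ 2) / B ^ (2 / cexp n)) ^ ((n:ℝ) / 2) := by
      intro c hc
      obtain ⟨W, hW⟩ : ∃ W, W = c ^ 2 * D + ν * L := ⟨_, rfl⟩
      have hW0 : 0 < W := by rw [hW]; positivity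
      obtain ⟨b, hb⟩ : ∃ b, b = (W / B) ^ (1 / (cexp n - 2)) := ⟨_, rfl⟩
      have hb0 : 0 < b := by rw [hb]; positivity
      have hbp : b ^ (cexp n - 2) = W / B := by
        rw [hb, ← Real.rpow_mul (by positivity), one_div, inv_mul_cancel₀ (by linarith),
          Real.rpow_one]
      have e1 : b ^ cexp n = b ^ 2 * (W / B) := by
        rw [← hbp, ← Real.rpow_two, ← Real.rpow_add hb0]; congr 1; ring
      have hz := tp_InH hψ hc 0 b
      have hN : Nf p μ ν lam (tp ψ c 0 b) = 0 := by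
        unfold Nf
        rw [tp_Qf hψ hc, tp_Af hc le_rfl, tp_Bff hc hb0.le, Real.zero_rpow (by linarith), e1,
          ← hD, ← hL, ← hB]
        have : b ^ 2 * (W / B) * ((c ^ n)⁻¹ * B) = b ^ 2 * W * (c ^ n)⁻¹ := by field_simp
        rw [this, hW]; ring
      have hnz := tp_nz hψ hψ0 (c := c) (a := 0) (b := b) hc (by positivity)
      have h2 := (lev_le_of_neg hn hp hμ hν h0 h1 hz hnz hN.le).1
      refine h2.trans_eq ?_
      unfold Kf
      rw [tp_Af hc le_rfl, tp_Bff hc hb0.le, Real.zero_rpow (by linarith), ← hB, zero_mul, mul_zero,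
        zero_add]
      congr 1
      -- computation of the power
      have e2 : b ^ cexp n = (W / B) ^ ((n:ℝ) / 2) := by
        rw [hb, ← Real.rpow_mul (by positivity)]
        congr 1
        have hh : (n:ℝ) - 2 ≠ 0 := by linarith
        have : cexp n - 2 = 4 / ((n:ℝ) - 2) := by unfold cexp; field_simp; ring
        rw [this]
        unfold cexp
        field_simp
        ring
      rw [e2]
      have e3 : (D + ν * L / c ^ 2) / B ^ (2 / cexp n) = W / (c ^ 2 * B ^ (2 / cexp n)) := by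
        rw [hW]; field_simp
      rw [e3, Real.div_rpow hW0.le hB0.le, Real.div_rpow hW0.le (by positivity),
        Real.mul_rpow (by positivity) (by positivity), ← Real.rpow_mul hB0.le]
      have e4 : (c ^ 2) ^ ((n:ℝ) / 2) = c ^ n := by
        rw [← Real.rpow_natCast c 2, ← Real.rpow_mul hc.le, ← Real.rpow_natCast c n]
        congr 1; push_cast; ring
      have e5 : B ^ ((n:ℝ) / 2) = B ^ (2 / cexp n * ((n:ℝ) / 2)) * B := by
        rw [← Real.rpow_add_one hB0.ne']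
        congr 1
        have hh : (n:ℝ) - 2 ≠ 0 := by linarith
        unfold cexp; field_simp; ring
      rw [e4, e5]
      have hp1 : 0 < B ^ (2 / cexp n * ((n:ℝ) / 2)) := by positivity
      field_simp
    -- let c → ∞
    have hlim : Tendsto (fun c : ℝ => 1 / n * ((D + ν * L / c ^ 2) / B ^ (2 / cexp n)) ^
        ((n:ℝ) / 2)) atTop (𝓝 (1 / n * ((D + 0) / B ^ (2 / cexp n)) ^ ((n:ℝ) / 2))) := by
      apply Tendsto.const_mul
      apply Tendsto.rpow_const
      · apply Tendsto.div_const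
        apply Tendsto.const_add
        exact Tendsto.div_atTop tendsto_const_nhds (tendsto_pow_atTop two_ne_zero)
      · right; positivity
    rw [add_zero] at hlim
    apply ge_of_tendsto hlim
    filter_upwards [eventually_gt_atTop 0] with c hc
    exact hall c hc
  -- take the infimum
  obtain ⟨ψ, hψ, hψ0⟩ := exists_tst n
  have hne : {r | ∃ u : E n → ℝ, ContDiff ℝ ∞ u ∧ HasCompactSupport u ∧ u ≠ 0 ∧
      r = (∫ x, ‖gradient u x‖ ^ 2) / (∫ x, |u x| ^ cexp n) ^ (2 / cexp n)}.Nonempty :=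
    ⟨_, ψ, hψ.1, hψ.2, hψ0, rfl⟩
  have hbd : BddBelow {r | ∃ u : E n → ℝ, ContDiff ℝ ∞ u ∧ HasCompactSupport u ∧ u ≠ 0 ∧
      r = (∫ x, ‖gradient u x‖ ^ 2) / (∫ x, |u x| ^ cexp n) ^ (2 / cexp n)} := by
    refine ⟨0, ?_⟩
    rintro r ⟨u, -, -, -, rfl⟩
    exact div_nonneg (integral_nonneg fun x => by positivity)
      (Real.rpow_nonneg (integral_nonneg fun x => by positivity) _)
  obtain ⟨rs, -, hrs, hrsm⟩ := exists_seq_tendsto_sInf hne hbd
  have hlim : Tendsto (fun k => 1 / n * rs k ^ ((n:ℝ) / 2)) atTop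
      (𝓝 (1 / n * sobS n ^ ((n:ℝ) / 2))) := by
    apply Tendsto.const_mul
    exact Tendsto.rpow_const hrs (Or.inr (by positivity))
  exact ge_of_tendsto' hlim fun k => key _ (hrsm k)

/-- Every element of the Nehari manifold has energy above the threshold for small `λ`. -/
lemma EE_lt_of_small (hn : 3 ≤ n) {p μ ν lam : ℝ} (hp : 1 < p) (hp' : p + 1 < cexp n)
    (hμ : mu0 n p < μ) (hμ0 : 0 < mu0 n p) (hν : 0 < ν) (h0 : 0 < lam)
    (h1 : lam < Real.sqrt ((μ - mu0 n p) * ν)) {z : Pr n} (hz : InM p μ ν lam z) :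
    EE n < Kf p z := by
  have hn3 : (3:ℝ) ≤ n := by exact_mod_cast hn
  have hS := BN.sobS_pos hn
  have hc2 := HS.two_lt_cexp hn
  have hκ := kappa_pos hp
  obtain ⟨hz1, hz2, hz3⟩ := (inM_iff hp hn).1 hz
  obtain ⟨d, hd⟩ : ∃ d, d = μ - mu0 n p := ⟨_, rfl⟩
  rw [← hd] at h1
  have hd0 : 0 < d := by rw [hd]; linarith
  have hl2 : lam ^ 2 < d * ν := by
    have := Real.sq_sqrt (show 0 ≤ d * ν by positivity)
    nlinarith
  obtain ⟨s, hs⟩ : ∃ s, s = (d * ν - lam ^ 2) / (d + ν) := ⟨_, rfl⟩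
  have hs0 : 0 < s := by rw [hs]; apply div_pos <;> linarith
  have hsm : s * (d + ν) = d * ν - lam ^ 2 := by rw [hs]; field_simp
  have hsd : s < d := by
    by_contra h
    push Not at h
    nlinarith [mul_pos hd0 hν]
  have hsν : s < ν := by
    by_contra h
    push Not at h
    nlinarith [mul_pos hd0 hν]
  have hprod : lam ^ 2 ≤ (d - s) * (ν - s) := by nlinarith [sq_nonneg s]
  have hpt : ∀ a b : ℝ, 2 * lam * (a * b) ≤ (d - s) * a ^ 2 + (ν - s) * b ^ 2 := by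
    intro a b
    have h2 : 0 < d - s := by linarith
    have h3 : 0 ≤ ((d - s) * a - lam * b) ^ 2 := sq_nonneg _
    have h4 : 0 ≤ ((d - s) * (ν - s) - lam ^ 2) * b ^ 2 :=
      mul_nonneg (by linarith) (sq_nonneg _)
    have h5 : 0 ≤ (d - s) * ((d - s) * a ^ 2 + (ν - s) * b ^ 2 - 2 * lam * (a * b)) := by
      nlinarith
    have h6 := nonneg_of_mul_nonneg_right h5 h2
    linarith
  have huv : 2 * lam * (∫ x, z.u x * z.v x) ≤ (d - s) * (∫ x, z.u x ^ 2) +
      (ν - s) * ∫ x, z.v x ^ 2 := by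
    rw [← integral_const_mul, ← integral_const_mul, ← integral_const_mul,
      ← integral_add (hz1.1.int_sq.const_mul _) (hz1.2.int_sq.const_mul _)]
    apply integral_mono ((int_uv hz1.1.mu hz1.2.mu).const_mul _)
      ((hz1.1.int_sq.const_mul _).add (hz1.2.int_sq.const_mul _))
    intro x
    exact hpt _ _
  have hu0 : 0 ≤ ∫ x, z.u x ^ 2 := integral_nonneg fun x => by positivity
  have hv0 : 0 ≤ ∫ x, z.v x ^ 2 := integral_nonneg fun x => by positivity
  have hG0 : 0 ≤ ∫ x, ‖z.G x‖ ^ 2 := integral_nonneg fun x => by positivity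
  have hH0 : 0 ≤ ∫ x, ‖z.H x‖ ^ 2 := integral_nonneg fun x => by positivity
  obtain ⟨μ1, hμ1⟩ : ∃ μ1, μ1 = mu0 n p + s := ⟨_, rfl⟩
  have hμ10 : 0 < μ1 := by rw [hμ1]; linarith
  have hsplit : ((∫ x, ‖z.G x‖ ^ 2) + μ1 * ∫ x, z.u x ^ 2) +
      ((∫ x, ‖z.H x‖ ^ 2) + s * ∫ x, z.v x ^ 2) ≤ Af p z + Bff z := by
    have hQ : Qf μ ν lam z = Af p z + Bff z := by unfold Nf at hz3; linarith
    rw [← hQ]
    unfold Qf
    have : (d - s) * (∫ x, z.u x ^ 2) = μ * (∫ x, z.u x ^ 2) - μ1 * ∫ x, z.u x ^ 2 := by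
      rw [hd, hμ1]; ring
    nlinarith
  have hA0 := Af_nonneg p z
  have hB0 := Bff_nonneg z
  -- second alternative
  have altB : ∀ _ : 0 < Bff z, (∫ x, ‖z.H x‖ ^ 2) + s * (∫ x, z.v x ^ 2) ≤ Bff z →
      EE n < Kf p z := by
    intro hB h
    have hv := Bff_pos_nz hn hz1 hB
    have hsob := hz1.2.sobolev hn
    have h2 : sobS n * Bff z ^ (2 / cexp n) < Bff z := by
      have : sobS n * Bff z ^ (2 / cexp n) ≤ ∫ x, ‖z.H x‖ ^ 2 := hsob
      have h3 : 0 < s * ∫ x, z.v x ^ 2 := by positivity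
      linarith
    have h3 := S_lt_of_lt hn hB h2
    unfold EE Kf
    have h4 : 1 / (n:ℝ) * sobS n ^ ((n:ℝ) / 2) < 1 / n * Bff z := by gcongr
    have h5 : 0 ≤ (1 / 2 - 1 / (p + 1)) * Af p z := by positivity
    linarith
  rcases le_or_gt ((∫ x, ‖z.G x‖ ^ 2) + μ1 * ∫ x, z.u x ^ 2) (Af p z) with hX | hX
  · rcases eq_or_lt_of_le hA0 with hA | hA
    · -- `A = 0`
      rw [← hA] at hX hsplit
      have hm : 0 ≤ μ1 * ∫ x, z.u x ^ 2 := by positivity
      have hu : ∫ x, z.u x ^ 2 = 0 := by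
        have : μ1 * ∫ x, z.u x ^ 2 = 0 := by linarith
        rcases mul_eq_zero.1 this with h | h
        · linarith
        · exact h
      have hv : 0 < ∫ x, z.v x ^ 2 := by linarith
      have hB := pos_of_nz_v hn hz1 hv
      exact altB hB (by linarith)
    · -- first alternative
      have hsub := hz1.1.sub_ineq hn (q := p + 1) (by linarith) hp'.le hμ10
      have hC := HS.subC_pos hn (q := p + 1) (by linarith) hp'.le
      obtain ⟨C, hCC⟩ : ∃ C, C = subC n (p + 1) := ⟨_, rfl⟩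
      rw [← hCC] at hsub hC
      have hAe : Af p z = Af p z ^ ((p - 1) / (p + 1)) * Af p z ^ (2 / (p + 1)) := by
        rw [← Real.rpow_add hA]
        have : (p - 1) / (p + 1) + 2 / (p + 1) = 1 := by field_simp; ring
        rw [this, Real.rpow_one]
      have h3 : C * μ1 ^ HS.kap n (p + 1) ≤ Af p z ^ ((p - 1) / (p + 1)) := by
        have hpos : 0 < Af p z ^ (2 / (p + 1)) := by positivity
        have h4 : C * μ1 ^ HS.kap n (p + 1) * Af p z ^ (2 / (p + 1)) ≤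
            Af p z ^ ((p - 1) / (p + 1)) * Af p z ^ (2 / (p + 1)) := by
          rw [← hAe]
          exact hsub.trans hX
        exact le_of_mul_le_mul_right h4 hpos
      have hp1 : 0 < p - 1 := by linarith
      have h5 := Real.rpow_le_rpow (by positivity) h3 (show 0 ≤ (p + 1) / (p - 1) by positivity)
      rw [← Real.rpow_mul hA0, show (p - 1) / (p + 1) * ((p + 1) / (p - 1)) = 1 by field_simp,
        Real.rpow_one, Real.mul_rpow hC.le (by positivity), ← Real.rpow_mul hμ10.le] at h5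
      obtain ⟨a, ha⟩ : ∃ a, a = (p + 1) / (p - 1) - (n:ℝ) / 2 := ⟨_, rfl⟩
      have hexp : HS.kap n (p + 1) * ((p + 1) / (p - 1)) = a := by
        rw [ha]; unfold HS.kap; field_simp; ring
      rw [hexp] at h5
      have ha0 : 0 < a := by
        rw [ha, sub_pos, div_lt_div_iff₀ (by norm_num) hp1]
        have : (p + 1) * ((n:ℝ) - 2) < 2 * n := by
          unfold cexp at hp'
          rwa [lt_div_iff₀ (by linarith)] at hp'
        nlinarith
      -- the value of μ₀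
      obtain ⟨Y, hY⟩ : ∃ Y, Y = 2 * (p + 1) / (n * (p - 1)) * sobS n ^ ((n : ℝ) / 2) *
        C ^ (-((p + 1) / (p - 1))) := ⟨_, rfl⟩
      have hY0 : 0 < Y := by rw [hY]; positivity
      have hmu : mu0 n p ^ a = Y := by
        have : mu0 n p = Y ^ a⁻¹ := by rw [hY, ha, hCC]; rfl
        rw [this, ← Real.rpow_mul hY0.le, inv_mul_cancel₀ ha0.ne', Real.rpow_one]
      have hlt : Y < μ1 ^ a := by
        rw [← hmu]
        exact Real.rpow_lt_rpow hμ0.le (by rw [hμ1]; linarith) ha0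
      have h6 : C ^ ((p + 1) / (p - 1)) * Y < Af p z :=
        lt_of_lt_of_le (mul_lt_mul_of_pos_left hlt (by positivity)) h5
      have h7 : (1 / 2 - 1 / (p + 1)) * (C ^ ((p + 1) / (p - 1)) * Y) = EE n := by
        rw [hY]
        unfold EE
        have e1 : C ^ ((p + 1) / (p - 1)) * (2 * (p + 1) / (n * (p - 1)) * sobS n ^ ((n : ℝ) / 2) *
            C ^ (-((p + 1) / (p - 1)))) = 2 * (p + 1) / (n * (p - 1)) * sobS n ^ ((n : ℝ) / 2) := by
          rw [Real.rpow_neg hC.le]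
          field_simp
        rw [e1]
        have hp2 : p + 1 ≠ 0 := by linarith
        have hp3 : p - 1 ≠ 0 := hp1.ne'
        have hn0 : (n:ℝ) ≠ 0 := by linarith
        field_simp
        ring
      unfold Kf
      rw [← h7]
      have h8 : (1 / 2 - 1 / (p + 1)) * (C ^ ((p + 1) / (p - 1)) * Y) <
          (1 / 2 - 1 / (p + 1)) * Af p z := mul_lt_mul_of_pos_left h6 hκ
      have h9 : 0 ≤ 1 / (n:ℝ) * Bff z := by positivity
      linarith
  · have hB : (∫ x, ‖z.H x‖ ^ 2) + s * (∫ x, z.v x ^ 2) < Bff z := by linarith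
    have hB' : 0 < Bff z := by
      have : 0 ≤ s * (∫ x, z.v x ^ 2) := by positivity
      linarith
    exact altB hB' hB.le

end Pool.Agent.R217.CW
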