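import Pool.Agent.R217.CW.Gt
import Pool.Agent.R217.CW.Crit
import Pool.Agent.R217.CW.Lev

set_option autoImplicit false
set_option linter.unusedSectionVars false

open MeasureTheory Filter Topology
open scoped ContDiff ENNReal NNReal RealInnerProductSpace

namespace Pool.Agent.R217.CW

open Pool.Agent.R217.BN (E cexp sobS)
open Pool.Agent.R217.HS (IsH1 Tst subC)

variable {n : ℕ}

lemma exp_a_pos (hn : 3 ≤ n) {p : ℝ} (hp : 1 < p) (hp' : p + 1 < cexp n) :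
    0 < (p + 1) / (p - 1) - (n:ℝ) / 2 := by
  have hn3 : (3:ℝ) ≤ n := by exact_mod_cast hn
  have hp1 : 0 < p - 1 := by linarith
  rw [sub_pos, div_lt_div_iff₀ (by norm_num) hp1]
  have : (p + 1) * ((n:ℝ) - 2) < 2 * n := by
    unfold cexp at hp'
    rwa [lt_div_iff₀ (by linarith)] at hp'
  nlinarith

lemma mu0_pos (hn : 3 ≤ n) {p : ℝ} (hp : 1 < p) (hp' : p + 1 < cexp n) : 0 < mu0 n p := by
  have hn3 : (3:ℝ) ≤ n := by exact_mod_cast hn
  have hS := BN.sobS_pos hn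
  have hC := HS.subC_pos hn (q := p + 1) (by linarith) hp'.le
  have hp1 : 0 < p - 1 := by linarith
  unfold mu0
  apply Real.rpow_pos_of_pos
  have h1 : 0 < 2 * (p + 1) / (n * (p - 1)) := by
    apply div_pos <;> nlinarith
  positivity

/-- The Nehari manifold is not empty. -/
lemma M_nonempty (hn : 3 ≤ n) {p μ ν lam : ℝ} (hp : 1 < p) (hν : 0 < ν) :
    ∃ z : Pr n, InM p μ ν lam z := by
  have hc2 := HS.two_lt_cexp hn
  have hc0 : 0 < cexp n := by linarith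
  obtain ⟨ψ, hψ, hψ0⟩ := exists_tst n
  obtain ⟨D, hD⟩ : ∃ D, D = ∫ x, ‖gradient ψ x‖ ^ 2 := ⟨_, rfl⟩
  obtain ⟨L, hL⟩ : ∃ L, L = ∫ x, ψ x ^ 2 := ⟨_, rfl⟩
  obtain ⟨B, hB⟩ : ∃ B, B = ∫ x, |ψ x| ^ cexp n := ⟨_, rfl⟩
  have hB0 : 0 < B := by rw [hB]; exact hψ.rpow_pos hψ0 hc0
  have hD0 : 0 ≤ D := by rw [hD]; exact integral_nonneg fun x => by positivity
  have hL0 : 0 < L := by
    rw [hL]
    have := hψ.rpow_pos hψ0 (r := 2) (by norm_num)
    simpa only [Real.rpow_two, sq_abs] using this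
  obtain ⟨W, hW⟩ : ∃ W, W = D + ν * L := ⟨_, rfl⟩
  have hW0 : 0 < W := by rw [hW]; positivity
  obtain ⟨b, hb⟩ : ∃ b, b = (W / B) ^ (1 / (cexp n - 2)) := ⟨_, rfl⟩
  have hb0 : 0 < b := by rw [hb]; positivity
  have hbp : b ^ (cexp n - 2) = W / B := by
    rw [hb, ← Real.rpow_mul (by positivity), one_div, inv_mul_cancel₀ (by linarith),
      Real.rpow_one]
  have e1 : b ^ cexp n = b ^ 2 * (W / B) := by
    rw [← hbp, ← Real.rpow_two, ← Real.rpow_add hb0]; congr 1; ring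
  refine ⟨tp ψ 1 0 b, (inM_iff hp hn).2 ⟨tp_InH hψ one_pos 0 b,
    tp_nz hψ hψ0 one_pos (by positivity), ?_⟩⟩
  unfold Nf
  rw [tp_Qf hψ one_pos, tp_Af one_pos le_rfl, tp_Bff one_pos hb0.le,
    Real.zero_rpow (by linarith), e1, ← hD, ← hL, ← hB]
  have : b ^ 2 * (W / B) * (((1:ℝ) ^ n)⁻¹ * B) = b ^ 2 * W * ((1:ℝ) ^ n)⁻¹ := by field_simp
  rw [this, hW]; ring

lemma int_uv_zero {z : Pr n} (hz : InH z) (h : ∫ x, z.u x ^ 2 = 0) : ∫ x, z.u x * z.v x = 0 := by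
  have h2 := (ae_zero_iff hz.1.mu).2 h
  rw [show (0:ℝ) = ∫ _ : E n, (0:ℝ) by simp]
  apply integral_congr_ae
  filter_upwards [h2] with x hx
  rw [hx]; simp

/-- Below the threshold energy the first component does not vanish. -/
lemma u_pos_of_lt (hn : 3 ≤ n) {p μ ν lam : ℝ} (hp : 1 < p) (hν : 0 < ν) {z : Pr n}
    (hz : InM p μ ν lam z) (h : Kf p z < EE n) : 0 < ∫ x, z.u x ^ 2 := by
  have hn3 : (3:ℝ) ≤ n := by exact_mod_cast hn
  obtain ⟨hz1, hz2, hz3⟩ := (inM_iff hp hn).1 hz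
  have hu0 : 0 ≤ ∫ x, z.u x ^ 2 := integral_nonneg fun x => by positivity
  rcases eq_or_lt_of_le hu0 with h0 | h0
  · exfalso
    have hv : 0 < ∫ x, z.v x ^ 2 := by linarith
    have hB := pos_of_nz_v hn hz1 hv
    have hA : Af p z = 0 := by
      rcases eq_or_lt_of_le (Af_nonneg p z) with h1 | h1
      · exact h1.symm
      · have := Af_pos_nz hp hz1 h1
        linarith
    have huv := int_uv_zero hz1 h0.symm
    have hG0 : 0 ≤ ∫ x, ‖z.G x‖ ^ 2 := integral_nonneg fun x => by positivity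
    have hsob : sobS n * Bff z ^ (2 / cexp n) ≤ ∫ x, ‖z.H x‖ ^ 2 := hz1.2.sobolev hn
    have hle : sobS n * Bff z ^ (2 / cexp n) ≤ Bff z := by
      have hQ : Qf μ ν lam z = Bff z := by unfold Nf at hz3; linarith
      unfold Qf at hQ
      rw [huv, ← h0] at hQ
      have : 0 ≤ ν * ∫ x, z.v x ^ 2 := by positivity
      linarith
    have h5 := S_le_of_le hn hB hle
    have h6 : 1 / (n:ℝ) * sobS n ^ ((n:ℝ) / 2) ≤ 1 / n * Bff z := by gcongr
    unfold Kf EE at h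
    rw [hA] at h
    linarith
  · exact h0

/-- Existence below the threshold energy. -/
theorem exists_GS (hn : 3 ≤ n) {p μ ν lam : ℝ} (hp : 1 < p) (hp' : p + 1 < cexp n)
    (hμ : 0 < μ) (hν : 0 < ν) (h0 : 0 < lam) (h1 : lam < Real.sqrt (μ * ν))
    (hlt : lev n p μ ν lam < EE n) : ∃ z : Pr n, IsGS p μ ν lam z := by
  obtain ⟨z0, hz0⟩ := M_nonempty (n := n) hn (μ := μ) (lam := lam) hp hν
  have hne : {r | ∃ z : Pr n, InM p μ ν lam z ∧ r = En p μ ν lam z}.Nonempty := ⟨_, z0, hz0, rfl⟩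
  obtain ⟨rs, -, hrs, hrsm⟩ := exists_seq_tendsto_sInf hne (lev_bdd p μ ν lam hp hn)
  choose z hz hzr using hrsm
  have hK : Tendsto (fun k => Kf p (z k)) atTop (𝓝 (lev n p μ ν lam)) := by
    refine hrs.congr fun k => ?_
    rw [hzr k, En_M hp hn (hz k)]
  have hev : ∀ᶠ k in atTop, Kf p (z k) < EE n := hK.eventually (gt_mem_nhds hlt)
  obtain ⟨K, hKK⟩ := eventually_atTop.1 hev
  have hshift : Tendsto (fun k => Kf p (z (k + K))) atTop (𝓝 (lev n p μ ν lam)) :=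
    hK.comp (tendsto_add_atTop_nat K)
  obtain ⟨w, hw, hwK⟩ := exists_min hn hp hp' hμ hν h0 h1 (lam := fun _ => lam)
    tendsto_const_nhds (fun _ => h0) (fun _ => le_rfl) (z := fun k => z (k + K))
    (fun k => hz _) (fun k => u_pos_of_lt hn hp hν (hz _) (hKK _ (by omega)))
    (fun k => (hKK (k + K) (by omega)).le) hshift le_rfl
  exact ⟨w, isSol_of_min hn hp hp' hμ hν h0 h1 hw hwK⟩

/-- Spreading test functions: the level is small near `√(μν)`. -/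
lemma spread (hn : 3 ≤ n) {p μ ν : ℝ} (hp : 1 < p) (hp' : p + 1 < cexp n)
    (hμ : 0 < μ) (hν : 0 < ν) :
    ∃ l1 : ℝ, 0 < l1 ∧ l1 < Real.sqrt (μ * ν) ∧
      ∀ lam : ℝ, l1 ≤ lam → lam < Real.sqrt (μ * ν) → lev n p μ ν lam < EE n := by
  have hn3 : (3:ℝ) ≤ n := by exact_mod_cast hn
  have hE := EE_pos hn
  have hc2 := HS.two_lt_cexp hn
  have hc0 : 0 < cexp n := by linarith
  have hp1 : 0 < p - 1 := by linarith
  have hκ := kappa_pos hp
  have ha := exp_a_pos hn hp hp'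
  obtain ⟨R, hR⟩ : ∃ R, R = Real.sqrt (μ * ν) := ⟨_, rfl⟩
  have hR0 : 0 < R := by rw [hR]; positivity
  have hR2 : R ^ 2 = μ * ν := by rw [hR]; exact Real.sq_sqrt (by positivity)
  obtain ⟨θ, hθ⟩ : ∃ θ, θ = R / ν := ⟨_, rfl⟩
  have hθ0 : 0 < θ := by rw [hθ]; positivity
  have hθν : ν * θ ^ 2 = μ := by
    rw [hθ, div_pow, hR2]; field_simp
  have hθR : θ * R = μ := by
    rw [hθ]
    have : R / ν * R = R ^ 2 / ν := by ring
    rw [this, hR2]; field_simp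
  obtain ⟨ψ, hψ, hψ0⟩ := exists_tst n
  obtain ⟨D, hD⟩ : ∃ D, D = ∫ x, ‖gradient ψ x‖ ^ 2 := ⟨_, rfl⟩
  obtain ⟨L, hL⟩ : ∃ L, L = ∫ x, ψ x ^ 2 := ⟨_, rfl⟩
  obtain ⟨a, haa⟩ : ∃ a, a = ∫ x, |ψ x| ^ (p + 1) := ⟨_, rfl⟩
  obtain ⟨b, hb⟩ : ∃ b, b = ∫ x, |ψ x| ^ cexp n := ⟨_, rfl⟩
  have ha0 : 0 < a := by rw [haa]; exact hψ.rpow_pos hψ0 (by linarith)
  have hb0 : 0 < b := by rw [hb]; exact hψ.rpow_pos hψ0 hc0
  have hD0 : 0 ≤ D := by rw [hD]; exact integral_nonneg fun x => by positivity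
  have hL0 : 0 < L := by
    rw [hL]
    have := hψ.rpow_pos hψ0 (r := 2) (by norm_num)
    simpa only [Real.rpow_two, sq_abs] using this
  obtain ⟨Q1, hQ1⟩ : ∃ Q1, Q1 = (1 + θ ^ 2) * D + 2 * θ * L := ⟨_, rfl⟩
  have hQ10 : 0 < Q1 := by rw [hQ1]; positivity
  -- the bound for the energy
  let F : ℝ → ℝ := fun c =>
    (1 / 2 - 1 / (p + 1)) * ((Q1 / a) ^ ((p + 1) / (p - 1)) * a) *
        c ^ (2 * ((p + 1) / (p - 1)) - (n:ℝ)) +
      1 / n * ((Q1 / a) ^ (cexp n / (p - 1)) * θ ^ cexp n * b) *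
        c ^ (2 * (cexp n / (p - 1)) - (n:ℝ))
  have he1 : 0 < 2 * ((p + 1) / (p - 1)) - (n:ℝ) := by linarith
  have he2 : 0 < 2 * (cexp n / (p - 1)) - (n:ℝ) := by
    have : (p + 1) / (p - 1) < cexp n / (p - 1) := by gcongr
    linarith
  have hF : Tendsto F (𝓝 0) (𝓝 (F 0)) := by
    have c1 : Continuous F := by
      have k1 : Continuous fun c : ℝ => c ^ (2 * ((p + 1) / (p - 1)) - (n:ℝ)) :=
        Continuous.rpow_const continuous_id fun x => Or.inr he1.le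
      have k2 : Continuous fun c : ℝ => c ^ (2 * (cexp n / (p - 1)) - (n:ℝ)) :=
        Continuous.rpow_const continuous_id fun x => Or.inr he2.le
      fun_prop
    exact c1.tendsto 0
  have hF0 : F 0 = 0 := by
    simp only [F]
    rw [Real.zero_rpow he1.ne', Real.zero_rpow he2.ne']
    ring
  rw [hF0] at hF
  obtain ⟨δ, hδ, hδF⟩ := Metric.eventually_nhds_iff.1 (hF.eventually (gt_mem_nhds hE))
  obtain ⟨c, hc0', hcδ⟩ : ∃ c : ℝ, 0 < c ∧ c < δ := ⟨δ / 2, by positivity, by linarith⟩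
  have hFc : F c < EE n := hδF (by rw [Real.dist_eq, sub_zero, abs_of_pos hc0']; exact hcδ)
  refine ⟨max (R - c ^ 2) (R / 2), lt_max_of_lt_right (by positivity), ?_, ?_⟩
  · rw [← hR]
    apply max_lt
    · have : 0 < c ^ 2 := by positivity
      linarith
    · linarith
  · intro lam hl1 hl2
    have hlam1 : R - c ^ 2 ≤ lam := (le_max_left _ _).trans hl1
    have hlam2 : R / 2 ≤ lam := (le_max_right _ _).trans hl1
    have hlam0 : 0 < lam := by linarith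
    obtain ⟨s, hs⟩ : ∃ s, s = (c ^ 2 * Q1 / a) ^ (1 / (p - 1)) := ⟨_, rfl⟩
    have hs0 : 0 < s := by rw [hs]; positivity
    have hsp : s ^ (p - 1) = c ^ 2 * Q1 / a := by
      rw [hs, ← Real.rpow_mul (by positivity), one_div, inv_mul_cancel₀ hp1.ne', Real.rpow_one]
    have hsp1 : s ^ (p + 1) = s ^ 2 * (c ^ 2 * Q1 / a) := by
      rw [← hsp, ← Real.rpow_two, ← Real.rpow_add hs0]; congr 1; ring
    have hz := tp_InH hψ hc0' s (s * θ)
    have hnz := tp_nz hψ hψ0 (c := c) (a := s) (b := s * θ) hc0' (by positivity)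
    have hsθ : 0 ≤ s * θ := by positivity
    have hcn : 0 < (c ^ n)⁻¹ := by positivity
    have hN : Nf p μ ν lam (tp ψ c s (s * θ)) ≤ 0 := by
      unfold Nf
      rw [tp_Qf hψ hc0', tp_Af hc0' hs0.le, hsp1, ← hD, ← hL, ← haa]
      have e1 : s ^ 2 * (c ^ 2 * Q1 / a) * ((c ^ n)⁻¹ * a) = (c ^ n)⁻¹ * (s ^ 2 * (c ^ 2 * Q1)) := by
        field_simp
      rw [e1]
      have e2 : (s ^ 2 + (s * θ) ^ 2) * c ^ 2 * D +
          (μ * s ^ 2 + ν * (s * θ) ^ 2 - 2 * lam * (s * (s * θ))) * L ≤ s ^ 2 * (c ^ 2 * Q1) := by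
        have e3 : μ * s ^ 2 + ν * (s * θ) ^ 2 - 2 * lam * (s * (s * θ)) =
            s ^ 2 * (2 * θ * (R - lam)) := by
          have : ν * (s * θ) ^ 2 = s ^ 2 * μ := by rw [← hθν]; ring
          rw [this]
          have h2 : μ = θ * R := hθR.symm
          rw [h2]; ring
        rw [e3, hQ1]
        have e4 : s ^ 2 * (2 * θ * (R - lam)) * L ≤ s ^ 2 * (2 * θ * c ^ 2) * L := by
          have : R - lam ≤ c ^ 2 := by linarith
          gcongr
        nlinarith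
      have h5 := mul_le_mul_of_nonneg_left e2 hcn.le
      have h6 := Bff_nonneg (tp ψ c s (s * θ))
      linarith
    have h7 := (lev_le_of_neg hn hp hμ hν hlam0 hl2 hz hnz hN).1
    refine lt_of_le_of_lt h7 (lt_of_eq_of_lt ?_ hFc)
    unfold Kf
    rw [tp_Af hc0' hs0.le, tp_Bff hc0' hsθ, ← haa, ← hb]
    have f1 : s ^ (p + 1) * (c ^ n)⁻¹ =
        (Q1 / a) ^ ((p + 1) / (p - 1)) * c ^ (2 * ((p + 1) / (p - 1)) - (n:ℝ)) := by
      rw [hs, ← Real.rpow_mul (by positivity), show c ^ 2 * Q1 / a = c ^ 2 * (Q1 / a) by ring,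
        Real.mul_rpow (by positivity) (by positivity), Real.rpow_sub hc0', ← Real.rpow_natCast c 2,
        ← Real.rpow_mul hc0'.le, Real.rpow_natCast]
      rw [show 1 / (p - 1) * (p + 1) = (p + 1) / (p - 1) by ring]
      push_cast
      ring
    have f2 : s ^ cexp n * (c ^ n)⁻¹ =
        (Q1 / a) ^ (cexp n / (p - 1)) * c ^ (2 * (cexp n / (p - 1)) - (n:ℝ)) := by
      rw [hs, ← Real.rpow_mul (by positivity), show c ^ 2 * Q1 / a = c ^ 2 * (Q1 / a) by ring,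
        Real.mul_rpow (by positivity) (by positivity), Real.rpow_sub hc0', ← Real.rpow_natCast c 2,
        ← Real.rpow_mul hc0'.le, Real.rpow_natCast]
      rw [show 1 / (p - 1) * cexp n = cexp n / (p - 1) by ring]
      push_cast
      ring
    rw [Real.mul_rpow hs0.le hθ0.le]
    have g1 : s ^ (p + 1) * ((c ^ n)⁻¹ * a) = (s ^ (p + 1) * (c ^ n)⁻¹) * a := by ring
    have g2 : s ^ cexp n * θ ^ cexp n * ((c ^ n)⁻¹ * b) =
        (s ^ cexp n * (c ^ n)⁻¹) * (θ ^ cexp n * b) := by ring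
    rw [g1, g2, f1, f2]
    simp only [F]
    ring

/-- Both components of a ground state are nonzero. -/
lemma both_pos {p μ ν lam : ℝ} (hn : 3 ≤ n) (hp : 1 < p) (h0 : 0 < lam) {z : Pr n}
    (hz : IsGS p μ ν lam z) : 0 < (∫ x, z.u x ^ 2) ∧ 0 < ∫ x, z.v x ^ 2 := by
  obtain ⟨hM, hS, -⟩ := hz
  obtain ⟨hz1, hz2, hz3⟩ := (inM_iff hp hn).1 hM
  have hc2 := HS.two_lt_cexp hn
  have hu0 : 0 ≤ ∫ x, z.u x ^ 2 := integral_nonneg fun x => by positivity
  have hv0 : 0 ≤ ∫ x, z.v x ^ 2 := integral_nonneg fun x => by positivity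
  constructor
  · rcases eq_or_lt_of_le hu0 with h | h
    · exfalso
      have hu := (ae_zero_iff hz1.1.mu).2 h.symm
      have hG := hz1.1.grad_zero hu
      let w : Pr n := ⟨z.v, z.H, fun x => 0 * z.v x, fun x => (0:ℝ) • z.H x⟩
      have hw : InH w := ⟨hz1.2, hz1.2.smul 0⟩
      have h1 := hS.2 w hw
      unfold dEn at h1
      simp only [w, zero_mul, zero_smul, inner_zero_right, mul_zero, add_zero, zero_add,
        integral_zero, sub_zero] at h1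
      have i1 : ∫ x, (⟪z.G x, z.H x⟫ + μ * (z.u x * z.v x)) = 0 := by
        rw [show (0:ℝ) = ∫ _ : E n, (0:ℝ) by simp]
        apply integral_congr_ae
        filter_upwards [hu, hG] with x hx hx2
        rw [hx, hx2]; simp
      have i2 : ∫ x, |z.u x| ^ (p - 1) * z.u x * z.v x = 0 := by
        rw [show (0:ℝ) = ∫ _ : E n, (0:ℝ) by simp]
        apply integral_congr_ae
        filter_upwards [hu] with x hx
        rw [hx]; simp
      rw [i1, i2] at h1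
      have i3 : ∫ x, z.v x * z.v x = ∫ x, z.v x ^ 2 := by congr 1; funext x; ring
      rw [i3] at h1
      have : lam * ∫ x, z.v x ^ 2 = 0 := by linarith
      rcases mul_eq_zero.1 this with h5 | h5
      · linarith
      · linarith
    · exact h
  · rcases eq_or_lt_of_le hv0 with h | h
    · exfalso
      have hu := (ae_zero_iff hz1.2.mu).2 h.symm
      have hG := hz1.2.grad_zero hu
      let w : Pr n := ⟨fun x => 0 * z.u x, fun x => (0:ℝ) • z.G x, z.u, z.G⟩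
      have hw : InH w := ⟨hz1.1.smul 0, hz1.1⟩
      have h1 := hS.2 w hw
      unfold dEn at h1
      simp only [w, zero_mul, zero_smul, inner_zero_right, mul_zero, add_zero, zero_add,
        integral_zero, sub_zero, zero_sub] at h1
      have i1 : ∫ x, (⟪z.H x, z.G x⟫ + ν * (z.v x * z.u x)) = 0 := by
        rw [show (0:ℝ) = ∫ _ : E n, (0:ℝ) by simp]
        apply integral_congr_ae
        filter_upwards [hu, hG] with x hx hx2
        rw [hx, hx2]; simp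
      have i2 : ∫ x, |z.v x| ^ (cexp n - 2) * z.v x * z.u x = 0 := by
        rw [show (0:ℝ) = ∫ _ : E n, (0:ℝ) by simp]
        apply integral_congr_ae
        filter_upwards [hu] with x hx
        rw [hx]; simp
      rw [i1, i2] at h1
      have i3 : ∫ x, z.u x * z.u x = ∫ x, z.u x ^ 2 := by congr 1; funext x; ring
      rw [i3] at h1
      have : lam * ∫ x, z.u x ^ 2 = 0 := by linarith
      rcases mul_eq_zero.1 this with h5 | h5
      · linarith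
      · linarith
    · exact h

/-- The coupling of a ground state is positive. -/
lemma uv_pos {p μ ν lam : ℝ} (hn : 3 ≤ n) (hp : 1 < p) (hμ : 0 < μ) (hν : 0 < ν) (h0 : 0 < lam)
    (h1 : lam < Real.sqrt (μ * ν)) {z : Pr n} (hz : IsGS p μ ν lam z) :
    0 < ∫ x, z.u x * z.v x := by
  obtain ⟨hu, hv⟩ := both_pos hn hp h0 hz
  obtain ⟨hM, hS, hE⟩ := hz
  obtain ⟨hz1, hz2, hz3⟩ := (inM_iff hp hn).1 hM
  have hc2 := HS.two_lt_cexp hn
  have hn3 : (3:ℝ) ≤ n := by exact_mod_cast hn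
  by_contra hcon
  push Not at hcon
  let w : Pr n := ⟨z.u, z.G, fun x => 0 * z.u x, fun x => (0:ℝ) • z.G x⟩
  have hw : InH w := ⟨hz1.1, hz1.1.smul 0⟩
  have h2 := hS.2 w hw
  have hB := pos_of_nz_v hn hz1 hv
  have hwA : Af p w = Af p z := rfl
  have hwB : Bff w = 0 := by
    unfold Bff
    simp only [w, zero_mul, abs_zero]
    rw [Real.zero_rpow (by linarith), integral_zero]
  have hX : (∫ x, ‖z.G x‖ ^ 2) + μ * (∫ x, z.u x ^ 2) = Af p z + lam * ∫ x, z.u x * z.v x := by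
    unfold dEn at h2
    simp only [w, zero_mul, zero_smul, inner_zero_right, mul_zero, add_zero, zero_add,
      integral_zero, sub_zero] at h2
    have e1 : ∫ x, (⟪z.G x, z.G x⟫ + μ * (z.u x * z.u x)) =
        (∫ x, ‖z.G x‖ ^ 2) + μ * ∫ x, z.u x ^ 2 := by
      rw [← integral_const_mul, ← integral_add hz1.1.int_grad (hz1.1.int_sq.const_mul μ)]
      congr 1; funext x; rw [real_inner_self_eq_norm_sq]; ring
    have e3 : ∀ t q : ℝ, 1 < q → |t| ^ (q - 2) * t * t = |t| ^ q := by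
      intro t q hq
      rcases eq_or_ne t 0 with h0 | h0
      · rw [h0]; simp [Real.zero_rpow (show q ≠ 0 by linarith)]
      · rw [mul_assoc, ← sq, ← sq_abs, ← Real.rpow_two, ← Real.rpow_add (abs_pos.2 h0)]
        congr 1; ring
    have e4 : ∫ x, |z.u x| ^ (p - 1) * z.u x * z.u x = Af p z := by
      unfold Af
      congr 1; funext x
      rw [← e3 (z.u x) (p + 1) (by linarith)]
      congr 3; ring
    have e5 : ∫ x, z.v x * z.u x = ∫ x, z.u x * z.v x := by congr 1; funext x; ring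
    rw [e1, e4, e5] at h2
    linarith
  have hNw : Nf p μ ν lam w ≤ 0 := by
    unfold Nf
    rw [hwA, hwB]
    have : Qf μ ν lam w = (∫ x, ‖z.G x‖ ^ 2) + μ * (∫ x, z.u x ^ 2) := by
      unfold Qf
      simp only [w, zero_mul, mul_zero, zero_smul, norm_zero, integral_zero]
      simp
    rw [this, hX]
    have : lam * (∫ x, z.u x * z.v x) ≤ 0 := mul_nonpos_of_nonneg_of_nonpos h0.le hcon
    linarith
  have hwnz : 0 < (∫ x, w.u x ^ 2) + ∫ x, w.v x ^ 2 := by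
    have : 0 ≤ ∫ x, w.v x ^ 2 := integral_nonneg fun x => by positivity
    have h5 : ∫ x, w.u x ^ 2 = ∫ x, z.u x ^ 2 := rfl
    linarith
  have h3 := (lev_le_of_neg hn hp hμ hν h0 h1 hw hwnz hNw).1
  rw [← hE, En_M hp hn hM] at h3
  unfold Kf at h3
  rw [hwA, hwB] at h3
  have : 0 < 1 / (n:ℝ) * Bff z := by positivity
  linarith

/-- Monotonicity of the level. -/
lemma lev_mono {p μ ν l1 l2 : ℝ} (hn : 3 ≤ n) (hp : 1 < p) (hμ : 0 < μ) (hν : 0 < ν)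
    (h0 : 0 < l1) (h12 : l1 ≤ l2) (h2 : l2 < Real.sqrt (μ * ν)) :
    lev n p μ ν l2 ≤ lev n p μ ν l1 := by
  obtain ⟨z0, hz0⟩ := M_nonempty (n := n) hn (μ := μ) (lam := l1) hp hν
  refine le_csInf (s := {r | ∃ z : Pr n, InM p μ ν l1 z ∧ r = En p μ ν l1 z})
    ⟨_, z0, hz0, rfl⟩ ?_
  rintro r ⟨z, hz, rfl⟩
  rw [En_M hp hn hz]
  obtain ⟨hz1, hz2, hz3⟩ := (inM_iff hp hn).1 hz
  rcases le_total 0 (∫ x, z.u x * z.v x) with h | h
  · have hN : Nf p μ ν l2 z ≤ 0 := by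
      have e : Nf p μ ν l2 z = Nf p μ ν l1 z - 2 * (l2 - l1) * ∫ x, z.u x * z.v x := by
        unfold Nf Qf; ring
      rw [e, hz3]
      have : 0 ≤ 2 * (l2 - l1) * ∫ x, z.u x * z.v x := mul_nonneg (by linarith) h
      linarith
    exact (lev_le_of_neg hn hp hμ hν (h0.trans_le h12) h2 hz1 hz2 hN).1
  · let w : Pr n := ⟨z.u, z.G, fun x => (-1) * z.v x, fun x => (-1:ℝ) • z.H x⟩
    have hw : InH w := ⟨hz1.1, hz1.2.smul (-1)⟩
    have e1 : ∫ x, w.u x * w.v x = -∫ x, z.u x * z.v x := by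
      rw [← integral_neg]
      congr 1; funext x; simp only [w]; ring
    have e2 : ∫ x, w.v x ^ 2 = ∫ x, z.v x ^ 2 := by
      congr 1; funext x; simp only [w]; ring
    have e3 : ∫ x, ‖w.H x‖ ^ 2 = ∫ x, ‖z.H x‖ ^ 2 := by
      congr 1; funext x; simp only [w, neg_smul, one_smul, norm_neg]
    have e4 : Bff w = Bff z := by
      unfold Bff
      congr 1; funext x; simp only [w, neg_one_mul, abs_neg]
    have e5 : Af p w = Af p z := rfl
    have hN : Nf p μ ν l2 w ≤ 0 := by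
      have e : Nf p μ ν l2 w = Nf p μ ν l1 z + 2 * (l1 + l2) * ∫ x, z.u x * z.v x := by
        unfold Nf Qf
        rw [e1, e2, e3, e4, e5]
        ring
      rw [e, hz3]
      have : 2 * (l1 + l2) * (∫ x, z.u x * z.v x) ≤ 0 :=
        mul_nonpos_of_nonneg_of_nonpos (by linarith) h
      linarith
    have hwnz : 0 < (∫ x, w.u x ^ 2) + ∫ x, w.v x ^ 2 := by rw [e2]; exact hz2
    have := (lev_le_of_neg hn hp hμ hν (h0.trans_le h12) h2 hw hwnz hN).1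
    have e6 : Kf p w = Kf p z := by unfold Kf; rw [e4, e5]
    rwa [e6] at this

/-- Ground states at a limit from above. -/
theorem limit_GS (hn : 3 ≤ n) {p μ ν : ℝ} (hp : 1 < p) (hp' : p + 1 < cexp n)
    (hμ : 0 < μ) (hν : 0 < ν) {Λ : ℝ} (hΛ0 : 0 < Λ) {lam : ℕ → ℝ} (hanti : Antitone lam)
    (hlim : Tendsto lam atTop (𝓝 Λ)) (hlt : ∀ k, lam k < Real.sqrt (μ * ν))
    (hGS : ∀ k, ∃ z : Pr n, IsGS p μ ν (lam k) z) : ∃ z : Pr n, IsGS p μ ν Λ z := by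
  choose z hz using hGS
  have hge : ∀ k, Λ ≤ lam k := fun k => hanti.le_of_tendsto hlim k
  have h0k : ∀ k, 0 < lam k := fun k => hΛ0.trans_le (hge k)
  have hM : ∀ k, InM p μ ν (lam k) (z k) := fun k => (hz k).1
  have hK : ∀ k, Kf p (z k) = lev n p μ ν (lam k) := fun k => by
    rw [← En_M hp hn (hM k)]; exact (hz k).2.2
  have hle : ∀ k, Kf p (z k) ≤ lev n p μ ν Λ := fun k => by
    rw [hK]; exact lev_mono hn hp hμ hν hΛ0 (hge k) (hlt k)
  have hmem : ∀ k, Kf p (z k) ∈ Set.Icc 0 (lev n p μ ν Λ) := fun k => ⟨Kf_nonneg hp _, hle k⟩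
  obtain ⟨l, hl, ns, hns, hconv⟩ := isCompact_Icc.tendsto_subseq hmem
  obtain ⟨w, hw, hwK⟩ := exists_min hn hp hp' hμ hν hΛ0 (hlt 0) (lam := fun k => lam (ns k))
    (hlim.comp hns.tendsto_atTop) (fun k => h0k _) (fun k => hanti (Nat.zero_le _))
    (z := fun k => z (ns k)) (fun k => hM _) (fun k => (both_pos hn hp (h0k _) (hz _)).1)
    (fun k => by
      rw [hK]; exact lev_le_EE hn hp hμ hν (h0k _) (hlt _)) hconv hl.2
  have hΛ1 : Λ < Real.sqrt (μ * ν) := (hge 0).trans_lt (hlt 0)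
  exact ⟨w, isSol_of_min hn hp hp' hμ hν hΛ0 hΛ1 hw hwK⟩

/-- No ground states for small coupling. -/
lemma lower_of_GS (hn : 3 ≤ n) {p μ ν lam : ℝ} (hp : 1 < p) (hp' : p + 1 < cexp n)
    (hμ : mu0 n p < μ) (hν : 0 < ν) (h0 : 0 < lam) (h1 : lam < Real.sqrt (μ * ν))
    (hex : ∃ z : Pr n, IsGS p μ ν lam z) : Real.sqrt ((μ - mu0 n p) * ν) ≤ lam := by
  by_contra hcon
  push Not at hcon
  obtain ⟨z, hz⟩ := hex
  have hmu := mu0_pos hn hp hp'
  have h2 := EE_lt_of_small hn hp hp' hμ hmu hν h0 hcon hz.1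
  have h3 := lev_le_EE hn hp (hmu.trans hμ) hν h0 h1
  rw [← hz.2.2, En_M hp hn hz.1] at h3
  linarith

lemma lower_of_lev (hn : 3 ≤ n) {p μ ν lam : ℝ} (hp : 1 < p) (hp' : p + 1 < cexp n)
    (hμ : mu0 n p < μ) (hν : 0 < ν) (h0 : 0 < lam) (hlt : lev n p μ ν lam < EE n) :
    Real.sqrt ((μ - mu0 n p) * ν) ≤ lam := by
  by_contra hcon
  push Not at hcon
  have hmu := mu0_pos hn hp hp'
  obtain ⟨z0, hz0⟩ := M_nonempty (n := n) hn (μ := μ) (lam := lam) hp hν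
  have : EE n ≤ lev n p μ ν lam := by
    refine le_csInf (s := {r | ∃ z : Pr n, InM p μ ν lam z ∧ r = En p μ ν lam z})
      ⟨_, z0, hz0, rfl⟩ ?_
    rintro r ⟨z, hz, rfl⟩
    rw [En_M hp hn hz]
    exact (EE_lt_of_small hn hp hp' hμ hmu hν h0 hcon hz).le
  linarith

/-- Main theorem, version 1. -/
theorem main1 (hn : 3 ≤ n) {p μ ν : ℝ} (hp : 1 < p) (hp' : p < cexp n - 1)
    (hμ : mu0 n p < μ) (hν : 0 < ν) :
    ∃ Λ : ℝ, Λ = sInf {lam | 0 < lam ∧ lam < Real.sqrt (μ * ν) ∧ ∃ z : Pr n, IsGS p μ ν lam z} ∧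
      Real.sqrt ((μ - mu0 n p) * ν) ≤ Λ ∧ Λ < Real.sqrt (μ * ν) ∧
      (∀ lam : ℝ, 0 < lam → lam < Λ → ¬ ∃ z : Pr n, IsGS p μ ν lam z) ∧
      (∀ lam : ℝ, Λ < lam → lam < Real.sqrt (μ * ν) → ∃ z : Pr n, IsGS p μ ν lam z) ∧
      ∃ z : Pr n, IsGS p μ ν Λ z := by
  have hp'' : p + 1 < cexp n := by linarith
  have hmu := mu0_pos hn hp hp''
  have hμ0 : 0 < μ := hmu.trans hμ
  obtain ⟨S, hS⟩ : ∃ S, S = {lam | 0 < lam ∧ lam < Real.sqrt (μ * ν) ∧
    ∃ z : Pr n, IsGS p μ ν lam z} := ⟨_, rfl⟩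
  have hmem : ∀ lam, lam ∈ S ↔ 0 < lam ∧ lam < Real.sqrt (μ * ν) ∧
    ∃ z : Pr n, IsGS p μ ν lam z := by intro lam; rw [hS]; rfl
  obtain ⟨l1, hl10, hl11, hl12⟩ := spread hn hp hp'' hμ0 hν
  have hne : S.Nonempty := ⟨l1, (hmem l1).2
    ⟨hl10, hl11, exists_GS hn hp hp'' hμ0 hν hl10 hl11 (hl12 l1 le_rfl hl11)⟩⟩
  have hlow : ∀ lam ∈ S, Real.sqrt ((μ - mu0 n p) * ν) ≤ lam := by
    intro lam hl
    obtain ⟨h1, h2, h3⟩ := (hmem lam).1 hl
    exact lower_of_GS hn hp hp'' hμ hν h1 h2 h3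
  have hbd : BddBelow S := ⟨_, fun lam hl => hlow lam hl⟩
  have hΛlow : Real.sqrt ((μ - mu0 n p) * ν) ≤ sInf S := le_csInf hne hlow
  have hpos : 0 < Real.sqrt ((μ - mu0 n p) * ν) := by
    apply Real.sqrt_pos.2
    exact mul_pos (by linarith) hν
  have hΛ0 : 0 < sInf S := hpos.trans_le hΛlow
  have hΛ1 : sInf S < Real.sqrt (μ * ν) := (csInf_le hbd hne.some_mem).trans_lt
    ((hmem _).1 hne.some_mem).2.1
  obtain ⟨lam, hanti, hlim, hlm⟩ := exists_seq_tendsto_sInf hne hbd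
  have hGSΛ : ∃ z : Pr n, IsGS p μ ν (sInf S) z :=
    limit_GS hn hp hp'' hμ0 hν hΛ0 hanti hlim (fun k => ((hmem _).1 (hlm k)).2.1)
      (fun k => ((hmem _).1 (hlm k)).2.2)
  refine ⟨sInf S, by rw [hS], hΛlow, hΛ1, ?_, ?_, hGSΛ⟩
  · intro l h1 h2 h3
    exact absurd (csInf_le hbd ((hmem l).2 ⟨h1, h2.trans hΛ1, h3⟩)) (not_le.2 h2)
  · intro l h1 h2
    obtain ⟨z, hz⟩ := hGSΛ
    have huv := uv_pos hn hp hμ0 hν hΛ0 hΛ1 hz
    obtain ⟨hz1, hz2, hz3⟩ := (inM_iff hp hn).1 hz.1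
    have hl0 : 0 < l := hΛ0.trans h1
    have hN : Nf p μ ν l z < 0 := by
      have e : Nf p μ ν l z = Nf p μ ν (sInf S) z - 2 * (l - sInf S) * ∫ x, z.u x * z.v x := by
        unfold Nf Qf; ring
      rw [e, hz3]
      have : 0 < 2 * (l - sInf S) * ∫ x, z.u x * z.v x := by
        apply mul_pos _ huv
        linarith
      linarith
    have h5 := (lev_le_of_neg hn hp hμ0 hν hl0 h2 hz1 hz2 hN.le).2 hN
    have h6 := lev_le_EE hn hp hμ0 hν hΛ0 hΛ1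
    rw [← hz.2.2, En_M hp hn hz.1] at h6
    exact exists_GS hn hp hp'' hμ0 hν hl0 h2 (h5.trans_le h6)

/-- Main theorem, version 2. -/
theorem main2 (hn : 3 ≤ n) {p μ ν : ℝ} (hp : 1 < p) (hp' : p < cexp n - 1)
    (hμ : mu0 n p < μ) (hν : 0 < ν) :
    ∃ Λ : ℝ, Λ = sInf {lam | 0 < lam ∧ lam < Real.sqrt (μ * ν) ∧
        ∀ τ : ℝ, lam ≤ τ → τ < Real.sqrt (μ * ν) → lev n p μ ν τ < EE n} ∧
      Real.sqrt ((μ - mu0 n p) * ν) ≤ Λ ∧ Λ < Real.sqrt (μ * ν) ∧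
      ∃ z : Pr n, IsGS p μ ν Λ z := by
  have hp'' : p + 1 < cexp n := by linarith
  have hmu := mu0_pos hn hp hp''
  have hμ0 : 0 < μ := hmu.trans hμ
  obtain ⟨S, hS⟩ : ∃ S, S = {lam | 0 < lam ∧ lam < Real.sqrt (μ * ν) ∧
        ∀ τ : ℝ, lam ≤ τ → τ < Real.sqrt (μ * ν) → lev n p μ ν τ < EE n} := ⟨_, rfl⟩
  have hmem : ∀ lam, lam ∈ S ↔ 0 < lam ∧ lam < Real.sqrt (μ * ν) ∧
        ∀ τ : ℝ, lam ≤ τ → τ < Real.sqrt (μ * ν) → lev n p μ ν τ < EE n := by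
    intro lam; rw [hS]; rfl
  obtain ⟨l1, hl10, hl11, hl12⟩ := spread hn hp hp'' hμ0 hν
  have hne : S.Nonempty := ⟨l1, (hmem l1).2 ⟨hl10, hl11, hl12⟩⟩
  have hlow : ∀ lam ∈ S, Real.sqrt ((μ - mu0 n p) * ν) ≤ lam := by
    intro lam hl
    obtain ⟨h1, h2, h3⟩ := (hmem lam).1 hl
    exact lower_of_lev hn hp hp'' hμ hν h1 (h3 lam le_rfl h2)
  have hbd : BddBelow S := ⟨_, fun lam hl => hlow lam hl⟩
  have hΛlow : Real.sqrt ((μ - mu0 n p) * ν) ≤ sInf S := le_csInf hne hlow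
  have hpos : 0 < Real.sqrt ((μ - mu0 n p) * ν) := by
    apply Real.sqrt_pos.2
    exact mul_pos (by linarith) hν
  have hΛ0 : 0 < sInf S := hpos.trans_le hΛlow
  have hΛ1 : sInf S < Real.sqrt (μ * ν) := (csInf_le hbd hne.some_mem).trans_lt
    ((hmem _).1 hne.some_mem).2.1
  obtain ⟨lam, hanti, hlim, hlm⟩ := exists_seq_tendsto_sInf hne hbd
  refine ⟨sInf S, by rw [hS], hΛlow, hΛ1, ?_⟩
  apply limit_GS hn hp hp'' hμ0 hν hΛ0 hanti hlim (fun k => ((hmem _).1 (hlm k)).2.1)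
  intro k
  obtain ⟨h1, h2, h3⟩ := (hmem _).1 (hlm k)
  exact exists_GS hn hp hp'' hμ0 hν h1 h2 (h3 _ le_rfl h2)

end Pool.Agent.R217.CW
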