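import Pool.Agent.R217.CW.Defs

set_option autoImplicit false
set_option linter.unusedSectionVars false

open MeasureTheory Filter Topology
open scoped ContDiff ENNReal NNReal RealInnerProductSpace

namespace Pool.Agent.R217.CW

open Pool.Agent.R217.BN (E cexp sobS)
open Pool.Agent.R217.HS (IsH1 Tst subC)

variable {n : ℕ}

lemma kappa_pos {p : ℝ} (hp : 1 < p) : 0 < 1 / 2 - 1 / (p + 1) := by
  rw [sub_pos, div_lt_div_iff₀ (by linarith) (by norm_num)]; linarith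

/-- Projection on the Nehari manifold. -/
lemma project (hn : 3 ≤ n) {p μ ν lam : ℝ} (hp : 1 < p) {z : Pr n}
    (hz : InH z) (h0 : 0 < (∫ x, z.u x ^ 2) + ∫ x, z.v x ^ 2)
    (hQ : 0 < Qf μ ν lam z) (hN : Nf p μ ν lam z ≤ 0) :
    ∃ t : ℝ, 0 < t ∧ t ≤ 1 ∧ InM p μ ν lam (smulP t z) ∧ Kf p (smulP t z) ≤ Kf p z ∧
      (Nf p μ ν lam z < 0 → Kf p (smulP t z) < Kf p z) := by
  have hc := HS.two_lt_cexp hn
  have hn3 : (3:ℝ) ≤ n := by exact_mod_cast hn
  have hA := Af_nonneg p z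
  have hB := Bff_nonneg z
  have hκ := kappa_pos hp
  let g : ℝ → ℝ := fun t => Qf μ ν lam z - t ^ (p - 1) * Af p z - t ^ (cexp n - 2) * Bff z
  have hg : Continuous g := by
    have c1 : Continuous fun t : ℝ => t ^ (p - 1) := by
      apply Continuous.rpow_const continuous_id
      intro x; right; linarith
    have c2 : Continuous fun t : ℝ => t ^ (cexp n - 2) := by
      apply Continuous.rpow_const continuous_id
      intro x; right; linarith
    fun_prop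
  have g0 : 0 < g 0 := by
    simp only [g]
    rw [Real.zero_rpow (by linarith), Real.zero_rpow (by linarith)]
    linarith
  have g1 : g 1 ≤ 0 := by
    simp only [g, Real.one_rpow, one_mul]
    exact hN
  obtain ⟨t, ⟨ht0, ht1⟩, htg⟩ := intermediate_value_Icc' (f := g) zero_le_one hg.continuousOn
    ⟨g1, g0.le⟩
  have ht0' : 0 < t := by
    rcases eq_or_lt_of_le ht0 with h | h
    · rw [← h] at htg; linarith
    · exact h
  have e1 : t ^ (p + 1) = t ^ 2 * t ^ (p - 1) := by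
    rw [← Real.rpow_two, ← Real.rpow_add ht0']; congr 1; ring
  have e2 : t ^ cexp n = t ^ 2 * t ^ (cexp n - 2) := by
    rw [← Real.rpow_two, ← Real.rpow_add ht0']; congr 1; ring
  have hNt : Nf p μ ν lam (smulP t z) = 0 := by
    unfold Nf
    rw [Qf_smul, Af_smul p z ht0, Bff_smul z ht0, e1, e2]
    have : t ^ 2 * Qf μ ν lam z - t ^ 2 * t ^ (p - 1) * Af p z -
        t ^ 2 * t ^ (cexp n - 2) * Bff z = t ^ 2 * g t := by simp only [g]; ring
    rw [this, htg, mul_zero]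
  have hnzt : 0 < (∫ x, (smulP t z).u x ^ 2) + ∫ x, (smulP t z).v x ^ 2 := by
    unfold smulP
    simp only [int_sq_smul]
    rw [← mul_add]
    positivity
  have k1 : t ^ (p + 1) ≤ 1 := Real.rpow_le_one ht0 ht1 (by linarith)
  have k2 : t ^ cexp n ≤ 1 := Real.rpow_le_one ht0 ht1 (by linarith)
  have hKt : Kf p (smulP t z) = (1 / 2 - 1 / (p + 1)) * (t ^ (p + 1) * Af p z) +
      1 / n * (t ^ cexp n * Bff z) := by
    unfold Kf
    rw [Af_smul p z ht0, Bff_smul z ht0]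
  have hn1 : 0 < 1 / (n:ℝ) := by positivity
  refine ⟨t, ht0', ht1, (inM_iff hp hn).2 ⟨hz.smulP t, hnzt, hNt⟩, ?_, ?_⟩
  · rw [hKt]
    unfold Kf
    have a1 : t ^ (p + 1) * Af p z ≤ Af p z := mul_le_of_le_one_left hA k1
    have a2 : t ^ cexp n * Bff z ≤ Bff z := mul_le_of_le_one_left hB k2
    gcongr
  · intro hlt
    have ht1' : t < 1 := by
      rcases eq_or_lt_of_le ht1 with h | h
      · exfalso
        rw [h] at htg
        simp only [g, Real.one_rpow, one_mul] at htg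
        have : Nf p μ ν lam z = 0 := htg
        linarith
      · exact h
    have k1' : t ^ (p + 1) < 1 := Real.rpow_lt_one ht0 ht1' (by linarith)
    have k2' : t ^ cexp n < 1 := Real.rpow_lt_one ht0 ht1' (by linarith)
    have hAB : 0 < Af p z + Bff z := by
      unfold Nf at hlt
      linarith
    rw [hKt]
    unfold Kf
    have a1 : t ^ (p + 1) * Af p z ≤ Af p z := mul_le_of_le_one_left hA k1
    have a2 : t ^ cexp n * Bff z ≤ Bff z := mul_le_of_le_one_left hB k2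
    rcases eq_or_lt_of_le hA with h | h
    · have hB' : 0 < Bff z := by linarith
      have a3 : t ^ cexp n * Bff z < Bff z := by nlinarith
      have b1 := mul_le_mul_of_nonneg_left a1 hκ.le
      have b2 := mul_lt_mul_of_pos_left a3 hn1
      linarith
    · have a3 : t ^ (p + 1) * Af p z < Af p z := by nlinarith
      have b1 := mul_lt_mul_of_pos_left a3 hκ
      have b2 := mul_le_mul_of_nonneg_left a2 hn1.le
      linarith

lemma lev_bdd (p μ ν lam : ℝ) (hp : 1 < p) (hn : 3 ≤ n) :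
    BddBelow {r | ∃ z : Pr n, InM p μ ν lam z ∧ r = En p μ ν lam z} := by
  refine ⟨0, ?_⟩
  rintro r ⟨z, hz, rfl⟩
  obtain ⟨h1, h2, h3⟩ := (inM_iff hp hn).1 hz
  rw [En_eq hn h1, h3]
  have := Kf_nonneg hp z
  linarith

lemma En_M {p μ ν lam : ℝ} (hp : 1 < p) (hn : 3 ≤ n) {z : Pr n} (hz : InM p μ ν lam z) :
    En p μ ν lam z = Kf p z := by
  obtain ⟨h1, h2, h3⟩ := (inM_iff hp hn).1 hz
  rw [En_eq hn h1, h3]
  ring

lemma lev_le {p μ ν lam : ℝ} (hp : 1 < p) (hn : 3 ≤ n) {z : Pr n} (hz : InM p μ ν lam z) :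
    lev n p μ ν lam ≤ Kf p z := by
  rw [← En_M hp hn hz]
  exact csInf_le (lev_bdd p μ ν lam hp hn) ⟨z, hz, rfl⟩

/-- The quadratic form is positive. -/
lemma Qf_pos {μ ν lam : ℝ} (hμ : 0 < μ) (hν : 0 < ν) (h0 : 0 < lam)
    (h1 : lam < Real.sqrt (μ * ν)) {z : Pr n} (hz : InH z)
    (hnz : 0 < (∫ x, z.u x ^ 2) + ∫ x, z.v x ^ 2) : 0 < Qf μ ν lam z := by
  obtain ⟨c, hc, hcc⟩ := coercive (n := n) hμ hν h0 h1
  have := hcc lam h0.le le_rfl z hz
  have g1 : 0 ≤ ∫ x, ‖z.G x‖ ^ 2 := integral_nonneg fun x => by positivity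
  have g2 : 0 ≤ ∫ x, ‖z.H x‖ ^ 2 := integral_nonneg fun x => by positivity
  have : 0 < c * ((∫ x, z.u x ^ 2) + ∫ x, z.v x ^ 2) := by positivity
  linarith

/-- The projection principle. -/
lemma lev_le_of_neg (hn : 3 ≤ n) {p μ ν lam : ℝ} (hp : 1 < p) (hμ : 0 < μ) (hν : 0 < ν)
    (h0 : 0 < lam) (h1 : lam < Real.sqrt (μ * ν)) {z : Pr n}
    (hz : InH z) (hnz : 0 < (∫ x, z.u x ^ 2) + ∫ x, z.v x ^ 2)
    (hN : Nf p μ ν lam z ≤ 0) :
    lev n p μ ν lam ≤ Kf p z ∧ (Nf p μ ν lam z < 0 → lev n p μ ν lam < Kf p z) := by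
  obtain ⟨t, ht0, ht1, hM, hK, hK'⟩ := project hn hp hz hnz (Qf_pos hμ hν h0 h1 hz hnz) hN
  have := lev_le hp hn hM
  exact ⟨this.trans hK, fun h => this.trans_lt (hK' h)⟩

lemma Af_pos_nz {p : ℝ} (hp : 1 < p) {z : Pr n} (hz : InH z) (h : 0 < Af p z) :
    0 < ∫ x, z.u x ^ 2 := by
  by_contra hcon
  have h0 : 0 ≤ ∫ x, z.u x ^ 2 := integral_nonneg fun x => by positivity
  have h1 : ∫ x, z.u x ^ 2 = 0 := by linarith
  have h2 := (ae_zero_iff hz.1.mu).2 h1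
  have h3 : Af p z = 0 := by
    unfold Af
    rw [show (0:ℝ) = ∫ _ : E n, (0:ℝ) by simp]
    apply integral_congr_ae
    filter_upwards [h2] with x hx
    rw [hx]
    simp [Real.zero_rpow (show p + 1 ≠ 0 by linarith)]
  linarith

lemma Bff_pos_nz (hn : 3 ≤ n) {z : Pr n} (hz : InH z) (h : 0 < Bff z) :
    0 < ∫ x, z.v x ^ 2 := by
  have hc := BN.cexp_pos hn
  by_contra hcon
  have h0 : 0 ≤ ∫ x, z.v x ^ 2 := integral_nonneg fun x => by positivity
  have h1 : ∫ x, z.v x ^ 2 = 0 := by linarith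
  have h2 := (ae_zero_iff hz.2.mu).2 h1
  have h3 : Bff z = 0 := by
    unfold Bff
    rw [show (0:ℝ) = ∫ _ : E n, (0:ℝ) by simp]
    apply integral_congr_ae
    filter_upwards [h2] with x hx
    rw [hx]
    simp [Real.zero_rpow hc.ne']
  linarith

lemma pos_of_nz_u {p : ℝ} (hp : 1 < p) {z : Pr n} (hz : InH z)
    (hi : Integrable (fun x => |z.u x| ^ (p + 1))) (h : 0 < ∫ x, z.u x ^ 2) : 0 < Af p z := by
  rcases eq_or_lt_of_le (Af_nonneg p z) with h0 | h0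
  · exfalso
    have h1 := (integral_eq_zero_iff_of_nonneg (fun x => by positivity) hi).1 h0.symm
    have h2 : z.u =ᵐ[volume] 0 := by
      filter_upwards [h1] with x hx
      have hx' : |z.u x| ^ (p + 1) = 0 := hx
      rw [Real.rpow_eq_zero (abs_nonneg _) (by linarith), abs_eq_zero] at hx'
      exact hx'
    rw [(ae_zero_iff hz.1.mu).1 h2] at h
    exact lt_irrefl _ h
  · exact h0

lemma pos_of_nz_v (hn : 3 ≤ n) {z : Pr n} (hz : InH z) (h : 0 < ∫ x, z.v x ^ 2) :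
    0 < Bff z := by
  have hc := BN.cexp_pos hn
  rcases eq_or_lt_of_le (Bff_nonneg z) with h0 | h0
  · exfalso
    have h1 := (integral_eq_zero_iff_of_nonneg (fun x => by positivity)
      (hz.2.sobolev' hn).1).1 h0.symm
    have h2 : z.v =ᵐ[volume] 0 := by
      filter_upwards [h1] with x hx
      have hx' : |z.v x| ^ cexp n = 0 := hx
      rw [Real.rpow_eq_zero (abs_nonneg _) hc.ne', abs_eq_zero] at hx'
      exact hx'
    rw [(ae_zero_iff hz.2.mu).1 h2] at h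
    exact lt_irrefl _ h
  · exact h0

lemma one_sub_two_div (hn : 3 ≤ n) : 1 - 2 / cexp n = 2 / (n:ℝ) := by
  have hn3 : (3:ℝ) ≤ n := by exact_mod_cast hn
  have h2 : (n:ℝ) - 2 ≠ 0 := by linarith
  unfold cexp
  field_simp
  ring

/-- comparison `B ≤ S^{n/2}` iff `B ≤ S B^{2/2*}`. -/
lemma le_of_le_S (hn : 3 ≤ n) {B : ℝ} (hB : 0 ≤ B) (h : B ≤ sobS n ^ ((n:ℝ) / 2)) :
    B ≤ sobS n * B ^ (2 / cexp n) := by
  have hn3 : (3:ℝ) ≤ n := by exact_mod_cast hn
  have hS := BN.sobS_pos hn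
  have hc := BN.cexp_pos hn
  rcases eq_or_lt_of_le hB with h0 | h0
  · rw [← h0, Real.zero_rpow (by positivity), mul_zero]
  have h1 : B ^ (2 / (n:ℝ)) ≤ sobS n := by
    have := Real.rpow_le_rpow hB h (show 0 ≤ 2 / (n:ℝ) by positivity)
    rwa [← Real.rpow_mul hS.le, show (n:ℝ) / 2 * (2 / n) = 1 by field_simp, Real.rpow_one] at this
  have h2 : B = B ^ (2 / (n:ℝ)) * B ^ (2 / cexp n) := by
    rw [← Real.rpow_add h0, ← one_sub_two_div hn]
    simp
  calc B = B ^ (2 / (n:ℝ)) * B ^ (2 / cexp n) := h2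
    _ ≤ sobS n * B ^ (2 / cexp n) := by gcongr

lemma S_le_of_le (hn : 3 ≤ n) {B : ℝ} (hB : 0 < B) (h : sobS n * B ^ (2 / cexp n) ≤ B) :
    sobS n ^ ((n:ℝ) / 2) ≤ B := by
  have hn3 : (3:ℝ) ≤ n := by exact_mod_cast hn
  have hS := BN.sobS_pos hn
  have h2 : B = B ^ (2 / (n:ℝ)) * B ^ (2 / cexp n) := by
    rw [← Real.rpow_add hB, ← one_sub_two_div hn]
    simp
  have hp : 0 < B ^ (2 / cexp n) := by positivity
  have h3 : sobS n ≤ B ^ (2 / (n:ℝ)) := by
    rw [h2] at h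
    have h4 : (B ^ (2 / (n:ℝ)) * B ^ (2 / cexp n)) ^ (2 / cexp n) = B ^ (2 / cexp n) := by
      rw [← h2]
    rw [h4] at h
    exact le_of_mul_le_mul_right h hp
  have := Real.rpow_le_rpow hS.le h3 (show 0 ≤ (n:ℝ) / 2 by positivity)
  rwa [← Real.rpow_mul hB.le, show 2 / (n:ℝ) * ((n:ℝ) / 2) = 1 by field_simp, Real.rpow_one] at this

lemma S_lt_of_lt (hn : 3 ≤ n) {B : ℝ} (hB : 0 < B) (h : sobS n * B ^ (2 / cexp n) < B) :
    sobS n ^ ((n:ℝ) / 2) < B := by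
  rcases lt_or_ge (sobS n ^ ((n:ℝ) / 2)) B with h1 | h1
  · exact h1
  · exact absurd (le_of_le_S hn hB.le h1) (not_le.2 h)

/-- Uniform lower bound of the subcritical part. -/
lemma nonvanishing (hn : 3 ≤ n) {p μ ν lb : ℝ} (hp : 1 < p) (hp' : p + 1 < cexp n)
    (hμ : 0 < μ) (hν : 0 < ν) (h0 : 0 < lb) (hlb : lb < Real.sqrt (μ * ν)) :
    ∃ α : ℝ, 0 < α ∧ ∀ lam : ℝ, 0 < lam → lam ≤ lb → ∀ z : Pr n, InM p μ ν lam z →
      0 < (∫ x, z.u x ^ 2) → Kf p z ≤ 1 / n * sobS n ^ ((n:ℝ) / 2) → α ≤ Af p z := by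
  have hn3 : (3:ℝ) ≤ n := by exact_mod_cast hn
  have hκ := kappa_pos hp
  obtain ⟨c, hc, hcc⟩ := coercive (n := n) hμ hν h0 hlb
  obtain ⟨c', hc', hc'1, hc'c⟩ : ∃ c' : ℝ, 0 < c' ∧ c' ≤ 1 ∧ c' ≤ c :=
    ⟨min 1 c, by positivity, min_le_left _ _, min_le_right _ _⟩
  have hC := HS.subC_pos hn (q := p + 1) (by linarith) hp'.le
  obtain ⟨C, hCC⟩ : ∃ C, C = subC n (p + 1) * 1 ^ HS.kap n (p + 1) := ⟨_, rfl⟩
  have hC0 : 0 < C := by rw [hCC, Real.one_rpow, mul_one]; exact hC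
  refine ⟨(c' * C) ^ ((p + 1) / (p - 1)), by positivity, fun lam hl0 hl z hz hu hK => ?_⟩
  obtain ⟨hz1, hz2, hz3⟩ := (inM_iff hp hn).1 hz
  have hA0 := Af_nonneg p z
  have hB0 := Bff_nonneg z
  have hB : Bff z ≤ sobS n ^ ((n:ℝ) / 2) := by
    unfold Kf at hK
    have h1 : 0 ≤ (1 / 2 - 1 / (p + 1)) * Af p z := by positivity
    have h2 : 1 / (n:ℝ) * Bff z ≤ 1 / n * sobS n ^ ((n:ℝ) / 2) := by linarith
    exact le_of_mul_le_mul_left h2 (by positivity)
  have hB2 := le_of_le_S hn hB0 hB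
  have hS := hz1.2.sobolev hn
  have hco := hcc lam hl0.le hl z hz1
  have hD := hz1.1.sub_ineq hn (q := p + 1) (by linarith) hp'.le one_pos
  rw [← hCC, one_mul] at hD
  have gG : 0 ≤ ∫ x, ‖z.G x‖ ^ 2 := integral_nonneg fun x => by positivity
  have gu : 0 ≤ ∫ x, z.u x ^ 2 := integral_nonneg fun x => by positivity
  have gv : 0 ≤ ∫ x, z.v x ^ 2 := integral_nonneg fun x => by positivity
  -- A dominates the norm of u
  have h1 : c' * ((∫ x, ‖z.G x‖ ^ 2) + ∫ x, z.u x ^ 2) ≤ Af p z := by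
    have hS' : sobS n * Bff z ^ (2 / cexp n) ≤ ∫ x, ‖z.H x‖ ^ 2 := hS
    have hN : Qf μ ν lam z = Af p z + Bff z := by
      unfold Nf at hz3; linarith
    have a1 : c' * (∫ x, ‖z.G x‖ ^ 2) ≤ ∫ x, ‖z.G x‖ ^ 2 := mul_le_of_le_one_left gG hc'1
    have a2 : c' * (∫ x, z.u x ^ 2) ≤ c * (∫ x, z.u x ^ 2) := by gcongr
    have a3 : 0 ≤ c * (∫ x, z.v x ^ 2) := by positivity
    rw [mul_add] at hco ⊢
    linarith
  have hApos : 0 < Af p z := by
    have : 0 < c' * ((∫ x, ‖z.G x‖ ^ 2) + ∫ x, z.u x ^ 2) := by positivity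
    linarith
  have h2 : c' * (C * Af p z ^ (2 / (p + 1))) ≤ Af p z := by
    refine le_trans ?_ h1
    exact mul_le_mul_of_nonneg_left hD hc'.le
  have hAe : Af p z = Af p z ^ ((p - 1) / (p + 1)) * Af p z ^ (2 / (p + 1)) := by
    rw [← Real.rpow_add hApos]
    have : (p - 1) / (p + 1) + 2 / (p + 1) = 1 := by field_simp; ring
    rw [this, Real.rpow_one]
  have h3 : c' * C ≤ Af p z ^ ((p - 1) / (p + 1)) := by
    have hpos : 0 < Af p z ^ (2 / (p + 1)) := by positivity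
    have h4 : c' * C * Af p z ^ (2 / (p + 1)) ≤
        Af p z ^ ((p - 1) / (p + 1)) * Af p z ^ (2 / (p + 1)) := by
      rw [← hAe]; linarith
    exact le_of_mul_le_mul_right h4 hpos
  have hp1 : 0 < p - 1 := by linarith
  have := Real.rpow_le_rpow (by positivity) h3 (show 0 ≤ (p + 1) / (p - 1) by positivity)
  rwa [← Real.rpow_mul hA0, show (p - 1) / (p + 1) * ((p + 1) / (p - 1)) = 1 by field_simp,
    Real.rpow_one] at this

end Pool.Agent.R217.CW
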